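import Pool.Agent.BKR.Defs

/-! # The exponential polynomials on complex lines -/

namespace Pool.Agent.BKR

variable {n d D0 D : ℕ}

private theorem ana_lam (l : Fin d → Fin n → ℂ) (m : Fin d → Fin D) (z w : Fin n → ℂ) (s : ℂ) :
    lam l m (fun j => z j + s * w j) = lam l m z + s * lam l m w := by
  simp only [lam, Finset.mul_sum, ← Finset.sum_add_distrib]
  refine Finset.sum_congr rfl fun k _ => Finset.sum_congr rfl fun j _ => by ring

private theorem ana_lin (g : Fin n → ℂ) (z w : Fin n → ℂ) (s : ℂ) :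
    ∑ j, g j * (z j + s * w j) = (∑ j, g j * z j) + s * ∑ j, g j * w j := by
  simp only [Finset.mul_sum, ← Finset.sum_add_distrib]
  refine Finset.sum_congr rfl fun j _ => by ring

private theorem ana_shift (D0 : ℕ) (c : Fin D0 → ℂ) (G γ : ℂ) :
    ∑ a : Fin D0, c a * (((a : ℕ) : ℂ) * G ^ ((a : ℕ) - 1) * γ) =
      ∑ a : Fin D0, (if h : (a : ℕ) + 1 < D0 then
        (((a : ℕ) + 1 : ℕ) : ℂ) * γ * c ⟨(a : ℕ) + 1, h⟩ else 0) * G ^ (a : ℕ) := by
  cases D0 with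
  | zero => simp
  | succ k =>
    rw [Fin.sum_univ_succ, Fin.sum_univ_castSucc]
    have h0 : c 0 * ((((0 : Fin (k + 1)) : ℕ) : ℂ) * G ^ (((0 : Fin (k + 1)) : ℕ) - 1) * γ) = 0 := by
      simp
    have h1 : (if h : ((Fin.last k : Fin (k + 1)) : ℕ) + 1 < k + 1 then
        ((((Fin.last k : Fin (k + 1)) : ℕ) + 1 : ℕ) : ℂ) * γ *
          c ⟨((Fin.last k : Fin (k + 1)) : ℕ) + 1, h⟩ else 0) *
          G ^ ((Fin.last k : Fin (k + 1)) : ℕ) = 0 := by
      rw [dif_neg (by simp), zero_mul]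
    rw [h0, h1, zero_add, add_zero]
    refine Finset.sum_congr rfl fun b _ => ?_
    have hb : ((b.castSucc : Fin (k + 1)) : ℕ) + 1 < k + 1 := by simp
    rw [dif_pos hb]
    have hs : (⟨((b.castSucc : Fin (k + 1)) : ℕ) + 1, hb⟩ : Fin (k + 1)) = b.succ := by
      ext; simp
    rw [hs]
    have e1 : ((b.succ : Fin (k + 1)) : ℕ) = (b : ℕ) + 1 := Fin.val_succ b
    have e2 : ((b.castSucc : Fin (k + 1)) : ℕ) = (b : ℕ) := rfl
    rw [e1, e2, Nat.add_sub_cancel]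
    ring

theorem hasDerivAt_F (g : Fin n → ℂ) (l : Fin d → Fin n → ℂ) (c : Idx D0 D d → ℂ)
    (z w : Fin n → ℂ) (s : ℂ) :
    HasDerivAt (fun s : ℂ => F g l c (fun j => z j + s * w j))
      (F g l (T g l w c) (fun j => z j + s * w j)) s := by
  set A : ℂ := ∑ j, g j * z j with hA
  set γ : ℂ := ∑ j, g j * w j with hγ
  have hterm : ∀ i : Idx D0 D d, HasDerivAt
      (fun s : ℂ => c i * (A + s * γ) ^ (i.1 : ℕ) * Complex.exp (lam l i.2 z + s * lam l i.2 w))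
      (c i * (((i.1 : ℕ) : ℂ) * (A + s * γ) ^ ((i.1 : ℕ) - 1) * γ) *
          Complex.exp (lam l i.2 z + s * lam l i.2 w) +
        c i * (A + s * γ) ^ (i.1 : ℕ) *
          (Complex.exp (lam l i.2 z + s * lam l i.2 w) * lam l i.2 w)) s := by
    intro i
    have h1 : HasDerivAt (fun s : ℂ => A + s * γ) γ s := by
      simpa using ((hasDerivAt_id s).mul_const γ).const_add A
    have h2 : HasDerivAt (fun s : ℂ => lam l i.2 z + s * lam l i.2 w) (lam l i.2 w) s := by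
      simpa using ((hasDerivAt_id s).mul_const (lam l i.2 w)).const_add (lam l i.2 z)
    exact ((h1.pow (i.1 : ℕ)).const_mul (c i)).mul h2.cexp
  have hsum := HasDerivAt.fun_sum (u := (Finset.univ : Finset (Idx D0 D d))) fun i _ => hterm i
  have hf : (fun s : ℂ => F g l c (fun j => z j + s * w j)) = fun s : ℂ => ∑ i : Idx D0 D d,
      c i * (A + s * γ) ^ (i.1 : ℕ) * Complex.exp (lam l i.2 z + s * lam l i.2 w) := by
    funext s
    simp only [F, ana_lam, ana_lin, ← hA, ← hγ]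
  rw [hf]
  refine hsum.congr_deriv ?_
  simp only [F, T, ana_lam, ana_lin, ← hA, ← hγ]
  rw [Finset.sum_add_distrib]
  have e3 : ∑ i : Idx D0 D d, (lam l i.2 w * c i + if h : (i.1 : ℕ) + 1 < D0 then
        (((i.1 : ℕ) + 1 : ℕ) : ℂ) * γ * c (⟨(i.1 : ℕ) + 1, h⟩, i.2) else 0) *
        (A + s * γ) ^ (i.1 : ℕ) * Complex.exp (lam l i.2 z + s * lam l i.2 w) =
      (∑ i : Idx D0 D d, (if h : (i.1 : ℕ) + 1 < D0 then
        (((i.1 : ℕ) + 1 : ℕ) : ℂ) * γ * c (⟨(i.1 : ℕ) + 1, h⟩, i.2) else 0) *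
        (A + s * γ) ^ (i.1 : ℕ) * Complex.exp (lam l i.2 z + s * lam l i.2 w)) +
      ∑ i : Idx D0 D d, c i * (A + s * γ) ^ (i.1 : ℕ) *
          (Complex.exp (lam l i.2 z + s * lam l i.2 w) * lam l i.2 w) := by
    rw [← Finset.sum_add_distrib]
    exact Finset.sum_congr rfl fun i _ => by ring
  rw [e3]
  congr 1
  rw [Fintype.sum_prod_type_right, Fintype.sum_prod_type_right]
  refine Finset.sum_congr rfl fun m _ => ?_
  simp only
  rw [← Finset.sum_mul, ← Finset.sum_mul, ana_shift D0 (fun a => c (a, m))]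

theorem differentiable_F (g : Fin n → ℂ) (l : Fin d → Fin n → ℂ) (c : Idx D0 D d → ℂ)
    (z w : Fin n → ℂ) : Differentiable ℂ (fun s : ℂ => F g l c (fun j => z j + s * w j)) :=
  fun s => (hasDerivAt_F g l c z w s).differentiableAt

theorem iteratedDeriv_F (g : Fin n → ℂ) (l : Fin d → Fin n → ℂ) (c : Idx D0 D d → ℂ)
    (z w : Fin n → ℂ) (k : ℕ) (s : ℂ) :
    iteratedDeriv k (fun s : ℂ => F g l c (fun j => z j + s * w j)) s =
      F g l (TW g l (List.replicate k w) c) (fun j => z j + s * w j) := by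
  induction k generalizing s with
  | zero => simp [TW]
  | succ k ih =>
    rw [iteratedDeriv_succ]
    have h : iteratedDeriv k (fun s : ℂ => F g l c (fun j => z j + s * w j)) =
        fun s => F g l (TW g l (List.replicate k w) c) (fun j => z j + s * w j) := funext ih
    rw [h, (hasDerivAt_F g l (TW g l (List.replicate k w) c) z w s).deriv]
    simp only [TW, List.replicate_succ, List.foldr_cons]

private theorem ana_dot_le (u z : Fin n → ℂ) (B Z : ℝ) (hB : 0 ≤ B)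
    (hu : ∀ j, ‖u j‖ ≤ B) (hz : ∀ j, ‖z j‖ ≤ Z) : ‖∑ j, u j * z j‖ ≤ n * B * Z := by
  calc ‖∑ j, u j * z j‖ ≤ ∑ j, ‖u j * z j‖ := norm_sum_le _ _
    _ ≤ ∑ _j : Fin n, B * Z := Finset.sum_le_sum fun j _ => by
        rw [norm_mul]
        exact mul_le_mul (hu j) (hz j) (norm_nonneg _) hB
    _ = n * B * Z := by
        rw [Finset.sum_const, Finset.card_univ, Fintype.card_fin, nsmul_eq_mul]; ring

private theorem ana_lam_le (l : Fin d → Fin n → ℂ) (m : Fin d → Fin D) (z : Fin n → ℂ) (B Z : ℝ)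
    (hB : 0 ≤ B) (hZ : 0 ≤ Z) (hl : ∀ k j, ‖l k j‖ ≤ B) (hz : ∀ j, ‖z j‖ ≤ Z) :
    ‖lam l m z‖ ≤ d * D * (n * B * Z) := by
  unfold lam
  calc ‖∑ k, ((m k : ℕ) : ℂ) * ∑ j, l k j * z j‖ ≤ ∑ k, ‖((m k : ℕ) : ℂ) * ∑ j, l k j * z j‖ :=
        norm_sum_le _ _
    _ ≤ ∑ _k : Fin d, (D : ℝ) * (n * B * Z) := Finset.sum_le_sum fun k _ => by
        rw [norm_mul]
        refine mul_le_mul ?_ (ana_dot_le (l k) z B Z hB (hl k) hz) (norm_nonneg _) (by positivity)
        rw [Complex.norm_natCast]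
        exact_mod_cast (m k).2.le
    _ = d * D * (n * B * Z) := by
        rw [Finset.sum_const, Finset.card_univ, Fintype.card_fin, nsmul_eq_mul]; ring

theorem norm_F_le (g : Fin n → ℂ) (l : Fin d → Fin n → ℂ) (c : Idx D0 D d → ℂ) (z : Fin n → ℂ)
    (B Z : ℝ) (hB : 0 ≤ B) (hZ : 0 ≤ Z) (hg : ∀ j, ‖g j‖ ≤ B) (hl : ∀ k j, ‖l k j‖ ≤ B)
    (hz : ∀ j, ‖z j‖ ≤ Z) (h1 : 1 ≤ n * B * Z) :
    ‖F g l c z‖ ≤ (∑ i, ‖c i‖) * (n * B * Z) ^ D0 * Real.exp (d * D * (n * B * Z)) := by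
  unfold F
  rw [Finset.sum_mul, Finset.sum_mul]
  refine (norm_sum_le _ _).trans (Finset.sum_le_sum fun i _ => ?_)
  rw [norm_mul, norm_mul, norm_pow]
  have hp : ‖∑ j, g j * z j‖ ^ (i.1 : ℕ) ≤ (n * B * Z) ^ D0 :=
    (pow_le_pow_left₀ (norm_nonneg _) (ana_dot_le g z B Z hB hg hz) _).trans
      (pow_le_pow_right₀ h1 i.1.2.le)
  have he : ‖Complex.exp (lam l i.2 z)‖ ≤ Real.exp (d * D * (n * B * Z)) := by
    rw [Complex.norm_exp]
    exact Real.exp_le_exp.2 ((Complex.re_le_norm _).trans (ana_lam_le l i.2 z B Z hB hZ hl hz))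
  exact mul_le_mul (mul_le_mul_of_nonneg_left hp (norm_nonneg _)) he (norm_nonneg _)
    (by positivity)

end Pool.Agent.BKR
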