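import Pool.Agent.BKR.Op

/-! # Values in a number field -/

namespace Pool.Agent.BKR

variable {n d D0 D : ℕ} {K : Type*} [Field K]

private theorem arith_swap {R : Type*} [CommRing R] (x : Fin n → R) (a : Fin n → R)
    (v : Fin n → Fin n → R) :
    ∑ j, x j * ∑ i, a i * v i j = ∑ i, a i * ∑ j, x j * v i j := by
  simp only [Finset.mul_sum]
  rw [Finset.sum_comm]
  refine Finset.sum_congr rfl fun i _ => Finset.sum_congr rfl fun j _ => ?_
  ring

theorem val_eq_F (ι : K →+* ℂ) (g : Fin n → ℂ) (l : Fin d → Fin n → ℂ)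
    (v : Fin n → Fin n → ℂ) (ρ : Fin n → K) (α : Fin d → Fin n → K)
    (hρ : ∀ i, ι (ρ i) = ∑ j, g j * v i j)
    (hα : ∀ k i, ι (α k i) = Complex.exp (∑ j, l k j * v i j)) (c : Idx D0 D d → K)
    (a : Fin n → ℕ) : ι (val ρ α c a) = F g l (fun i => ι (c i)) (gp v a) := by
  unfold val F
  rw [map_sum]
  refine Finset.sum_congr rfl fun i _ => ?_
  rw [map_mul, map_mul, map_pow, map_sum, map_prod]
  have e1 : ∑ j, g j * gp v a j = ∑ x, ι ((a x : K) * ρ x) := by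
    simp only [gp]
    rw [arith_swap]
    refine Finset.sum_congr rfl fun j _ => ?_
    rw [map_mul, hρ, map_natCast]
  have e2 : Complex.exp (lam l i.2 (gp v a)) = ∏ k, ι ((∏ j, α k j ^ a j) ^ ((i.2 k : Fin D) : ℕ)) := by
    unfold lam
    rw [Complex.exp_sum]
    refine Finset.prod_congr rfl fun k _ => ?_
    rw [map_pow, map_prod]
    simp only [gp]
    rw [arith_swap, Complex.exp_nat_mul, Complex.exp_sum]
    congr 1
    refine Finset.prod_congr rfl fun j _ => ?_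
    rw [map_pow, hα, Complex.exp_nat_mul]
  rw [e1, e2]

private theorem arith_uv_sum (x : Fin n → K) (j : Fin n) : ∑ i, x i * uv K j i = x j := by
  simp [uv]

private theorem arith_T (g : Fin n → K) (l : Fin d → Fin n → K) (b : ℕ)
    (hg : ∀ j, IsIntegral ℤ ((b : K) * g j)) (hl : ∀ k j, IsIntegral ℤ ((b : K) * l k j))
    (c : Idx D0 D d → K) (r : K) (hc : ∀ i, IsIntegral ℤ (r * c i)) (j : Fin n)
    (i : Idx D0 D d) : IsIntegral ℤ ((b : K) * r * T g l (uv K j) c i) := by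
  have hnat : ∀ m : ℕ, IsIntegral ℤ (m : K) := fun m => by
    have := isIntegral_algebraMap (R := ℤ) (A := K) (x := (m : ℤ))
    simpa using this
  have h1 : IsIntegral ℤ ((b : K) * lam l i.2 (uv K j)) := by
    unfold lam
    simp only [arith_uv_sum]
    rw [Finset.mul_sum]
    refine IsIntegral.sum _ fun k _ => ?_
    have : (b : K) * (((i.2 k : ℕ) : K) * l k j) = ((i.2 k : ℕ) : K) * ((b : K) * l k j) := by ring
    rw [this]
    exact (hnat _).mul (hl k j)
  unfold T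
  rw [mul_add]
  refine IsIntegral.add ?_ ?_
  · have : (b : K) * r * (lam l i.2 (uv K j) * c i) = (b : K) * lam l i.2 (uv K j) * (r * c i) := by
      ring
    rw [this]
    exact h1.mul (hc i)
  · split_ifs with h
    · rw [arith_uv_sum]
      have : (b : K) * r * ((((i.1 : ℕ) + 1 : ℕ) : K) * g j * c (⟨(i.1 : ℕ) + 1, h⟩, i.2))
          = (((i.1 : ℕ) + 1 : ℕ) : K) * ((b : K) * g j) * (r * c (⟨(i.1 : ℕ) + 1, h⟩, i.2)) := by
        ring
      rw [this]
      exact ((hnat _).mul (hg j)).mul (hc _)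
    · rw [mul_zero]; exact isIntegral_zero

theorem isIntegral_TW (g : Fin n → K) (l : Fin d → Fin n → K) (b : ℕ)
    (hg : ∀ j, IsIntegral ℤ ((b : K) * g j)) (hl : ∀ k j, IsIntegral ℤ ((b : K) * l k j))
    (c : Idx D0 D d → K) (hc : ∀ i, IsIntegral ℤ (c i)) (js : List (Fin n)) (i : Idx D0 D d) :
    IsIntegral ℤ ((b : K) ^ js.length * TW g l (js.map (uv K)) c i) := by
  induction js generalizing i with
  | nil => simpa [TW] using hc i
  | cons j js ih =>
    have e : TW g l ((j :: js).map (uv K)) c = T g l (uv K j) (TW g l (js.map (uv K)) c) := rfl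
    rw [e, List.length_cons, pow_succ']
    exact arith_T g l b hg hl _ _ ih j i

private theorem arith_exp (a : Fin n → ℕ) (N : ℕ) (ha : ∀ i, a i < N) (m : Fin d → Fin D) :
    ∑ k, (∑ j, a j) * (m k : ℕ) ≤ d * D * (n * N) := by
  have h1 : ∑ j, a j ≤ n * N := by
    calc ∑ j, a j ≤ ∑ _j : Fin n, N := Finset.sum_le_sum fun j _ => (ha j).le
      _ = n * N := by simp
  calc ∑ k, (∑ j, a j) * (m k : ℕ) ≤ ∑ _k : Fin d, (n * N) * D :=
        Finset.sum_le_sum fun k _ => Nat.mul_le_mul h1 (m k).2.le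
    _ = d * D * (n * N) := by simp; ring

private theorem arith_prod (x : Fin d → Fin n → K) (a : Fin n → ℕ) (m : Fin d → Fin D) (b : K) :
    b ^ (∑ k, (∑ j, a j) * (m k : ℕ)) * ∏ k, (∏ j, x k j ^ a j) ^ (m k : ℕ)
      = ∏ k, (∏ j, (b * x k j) ^ a j) ^ (m k : ℕ) := by
  rw [← Finset.prod_pow_eq_pow_sum, ← Finset.prod_mul_distrib]
  refine Finset.prod_congr rfl fun k _ => ?_
  rw [pow_mul, ← mul_pow, ← Finset.prod_pow_eq_pow_sum, ← Finset.prod_mul_distrib]
  congr 1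
  refine Finset.prod_congr rfl fun j _ => ?_
  rw [mul_pow]

theorem isIntegral_val (ρ : Fin n → K) (α : Fin d → Fin n → K) (b : ℕ)
    (hρ : ∀ i, IsIntegral ℤ ((b : K) * ρ i)) (hα : ∀ k i, IsIntegral ℤ ((b : K) * α k i))
    (r : K) (c : Idx D0 D d → K) (hc : ∀ i, IsIntegral ℤ (r * c i)) (N : ℕ) (a : Fin n → ℕ)
    (ha : ∀ i, a i < N) :
    IsIntegral ℤ (r * (b : K) ^ (D0 + d * D * (n * N)) * val ρ α c a) := by
  have hnat : ∀ m : ℕ, IsIntegral ℤ (m : K) := fun m => by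
    have := isIntegral_algebraMap (R := ℤ) (A := K) (x := (m : ℤ))
    simpa using this
  unfold val
  rw [Finset.mul_sum]
  refine IsIntegral.sum _ fun i _ => ?_
  set e1 : ℕ := (i.1 : ℕ) with he1
  set e2 : ℕ := ∑ k, (∑ j, a j) * ((i.2 k : Fin D) : ℕ) with he2
  have h1 : e1 ≤ D0 := i.1.2.le
  have h2 : e2 ≤ d * D * (n * N) := arith_exp a N ha i.2
  obtain ⟨f1, hf1⟩ := Nat.exists_eq_add_of_le h1
  obtain ⟨f2, hf2⟩ := Nat.exists_eq_add_of_le h2
  have e : r * (b : K) ^ (D0 + d * D * (n * N)) * (c i * (∑ j, (a j : K) * ρ j) ^ e1 *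
      ∏ k, (∏ j, α k j ^ a j) ^ ((i.2 k : Fin D) : ℕ))
      = (r * c i) * ((b : K) * ∑ j, (a j : K) * ρ j) ^ e1 *
        ((b : K) ^ e2 * ∏ k, (∏ j, α k j ^ a j) ^ ((i.2 k : Fin D) : ℕ)) * (b : K) ^ (f1 + f2) := by
    have hE : D0 + d * D * (n * N) = e1 + f1 + (e2 + f2) := by omega
    rw [hE, mul_pow]
    ring
  rw [e]
  refine ((((hc i).mul (IsIntegral.pow ?_ _)).mul ?_).mul ((hnat b).pow _))
  · rw [Finset.mul_sum]
    refine IsIntegral.sum _ fun j _ => ?_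
    have : (b : K) * ((a j : K) * ρ j) = (a j : K) * ((b : K) * ρ j) := by ring
    rw [this]
    exact (hnat _).mul (hρ j)
  · rw [he2, arith_prod]
    refine IsIntegral.prod _ fun k _ => IsIntegral.pow (IsIntegral.prod _ fun j _ => ?_) _
    exact (hα k j).pow _

theorem norm_val_le (σ : K →+* ℂ) (ρ : Fin n → K) (α : Fin d → Fin n → K) (B : ℝ) (hB : 1 ≤ B)
    (hρ : ∀ i, ‖σ (ρ i)‖ ≤ B) (hα : ∀ k i, ‖σ (α k i)‖ ≤ B) (c : Idx D0 D d → K) (N : ℕ)
    (hn : 0 < n) (hN : 0 < N) (a : Fin n → ℕ) (ha : ∀ i, a i < N) :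
    ‖σ (val ρ α c a)‖ ≤ (∑ i, ‖σ (c i)‖) * (n * N * B) ^ D0 * B ^ (d * D * (n * N)) := by
  have hB0 : 0 ≤ B := zero_le_one.trans hB
  have hnN : (1 : ℝ) ≤ n * N * B := by
    have h1 : (1 : ℝ) ≤ n := by exact_mod_cast hn
    have h2 : (1 : ℝ) ≤ N := by exact_mod_cast hN
    have h3 : (1 : ℝ) ≤ n * N := one_le_mul_of_one_le_of_one_le h1 h2
    exact one_le_mul_of_one_le_of_one_le h3 hB
  unfold val
  rw [map_sum, Finset.sum_mul, Finset.sum_mul]
  refine (norm_sum_le _ _).trans (Finset.sum_le_sum fun i _ => ?_)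
  rw [map_mul, map_mul, norm_mul, norm_mul]
  refine mul_le_mul (mul_le_mul_of_nonneg_left ?_ (norm_nonneg _)) ?_ (norm_nonneg _) (by positivity)
  · rw [map_pow, norm_pow, map_sum]
    have h1 : ‖∑ x, σ ((a x : K) * ρ x)‖ ≤ n * N * B := by
      calc ‖∑ x, σ ((a x : K) * ρ x)‖ ≤ ∑ x, ‖σ ((a x : K) * ρ x)‖ := norm_sum_le _ _
        _ ≤ ∑ _x : Fin n, (N : ℝ) * B := by
            refine Finset.sum_le_sum fun x _ => ?_
            rw [map_mul, norm_mul, map_natCast, Complex.norm_natCast]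
            exact mul_le_mul (by exact_mod_cast (ha x).le) (hρ x) (norm_nonneg _) (by positivity)
        _ = n * N * B := by simp; ring
    calc ‖∑ x, σ ((a x : K) * ρ x)‖ ^ (i.1 : ℕ) ≤ (n * N * B) ^ (i.1 : ℕ) :=
          pow_le_pow_left₀ (norm_nonneg _) h1 _
      _ ≤ (n * N * B) ^ D0 := pow_le_pow_right₀ hnN i.1.2.le
  · rw [map_prod, norm_prod]
    have h1 : ∏ k, ‖σ ((∏ j, α k j ^ a j) ^ ((i.2 k : Fin D) : ℕ))‖
        ≤ ∏ k : Fin d, B ^ ((∑ j, a j) * ((i.2 k : Fin D) : ℕ)) := by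
      refine Finset.prod_le_prod (fun k _ => norm_nonneg _) fun k _ => ?_
      rw [map_pow, norm_pow, pow_mul]
      refine pow_le_pow_left₀ (norm_nonneg _) ?_ _
      rw [map_prod, norm_prod, ← Finset.prod_pow_eq_pow_sum]
      refine Finset.prod_le_prod (fun j _ => norm_nonneg _) fun j _ => ?_
      rw [map_pow, norm_pow]
      exact pow_le_pow_left₀ (norm_nonneg _) (hα k j) _
    refine h1.trans ?_
    rw [Finset.prod_pow_eq_pow_sum]
    exact pow_le_pow_right₀ hB (arith_exp a N ha i.2)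

end Pool.Agent.BKR
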