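import Pool.Agent.BKR.Hom

/-! # Baker's theorem -/

namespace Pool.Agent.BKR

/-- **Baker's theorem**: `1` and `ℚ`-linearly independent logarithms of algebraic numbers are
linearly independent over the algebraic numbers. -/
theorem baker {ι : Type} [Fintype ι] (t : ι → ℂ) (ht : LinearIndependent ℚ t)
    (he : ∀ i, IsAlgebraic ℚ (Complex.exp (t i))) (b : ι → ℂ) (b0 : ℂ)
    (hb : ∀ i, IsAlgebraic ℚ (b i)) (hb0 : IsAlgebraic ℚ b0) (h : b0 + ∑ i, b i * t i = 0) :
    b0 = 0 ∧ ∀ i, b i = 0 := by
  obtain ⟨K, _, _, φ, y, hy⟩ := exists_numberField (fun i : Option ι => i.elim b0 b)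
    (fun i => by cases i <;> simp [hb0, hb])
  have h0 : φ (y none) = b0 := hy none
  have h1 : ∀ i, φ (y (some i)) = b i := fun i => hy (some i)
  have := baker_inh K t ht he (y none) (fun i => y (some i)) φ (by simpa [h0, h1] using h)
  refine ⟨by rw [← h0, this.1, map_zero], fun i => by rw [← h1, this.2 i, map_zero]⟩

end Pool.Agent.BKR
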