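import Mathlib

/-!
# Definitions for Baker's theorem by the theorem of Schneider and Lang on a grid

Exponential polynomials `∑ c (a, m) (g · z)^a exp ((∑ m_k l_k) · z)` in `n` complex variables, the action
of directional derivatives on their coefficients, and their values on a grid.
-/

namespace Pool.Agent.BKR

variable {R : Type*} [CommRing R] {n d D0 D : ℕ}

/-- indices `(a, m)`, `a < D0`, `m k < D` -/
abbrev Idx (D0 D d : ℕ) : Type := Fin D0 × (Fin d → Fin D)

/-- `(∑ k, m k • l k) · w` -/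
def lam (l : Fin d → Fin n → R) (m : Fin d → Fin D) (w : Fin n → R) : R :=
  ∑ k, ((m k : ℕ) : R) * ∑ j, l k j * w j

/-- differentiation in the direction `w`, acting on coefficients -/
def T (g : Fin n → R) (l : Fin d → Fin n → R) (w : Fin n → R) (c : Idx D0 D d → R) :
    Idx D0 D d → R := fun i =>
  lam l i.2 w * c i + if h : (i.1 : ℕ) + 1 < D0 then
    (((i.1 : ℕ) + 1 : ℕ) : R) * (∑ j, g j * w j) * c (⟨(i.1 : ℕ) + 1, h⟩, i.2) else 0

/-- iterated differentiation along a list of directions -/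
def TW (g : Fin n → R) (l : Fin d → Fin n → R) (ws : List (Fin n → R)) (c : Idx D0 D d → R) :
    Idx D0 D d → R :=
  ws.foldr (fun w c => T g l w c) c

/-- the unit vectors -/
def uv (R : Type*) [CommRing R] {n : ℕ} (j : Fin n) : Fin n → R := fun i => if i = j then 1 else 0

/-- the exponential polynomial with coefficients `c` -/
noncomputable def F (g : Fin n → ℂ) (l : Fin d → Fin n → ℂ) (c : Idx D0 D d → ℂ)
    (z : Fin n → ℂ) : ℂ :=
  ∑ i, c i * (∑ j, g j * z j) ^ (i.1 : ℕ) * Complex.exp (lam l i.2 z)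

/-- its value at the grid point `∑ a_i v_i` in terms of `ρ i = g · v i`, `α k i = exp (l k · v i)` -/
def val (ρ : Fin n → R) (α : Fin d → Fin n → R) (c : Idx D0 D d → R) (a : Fin n → ℕ) : R :=
  ∑ i, c i * (∑ j, (a j : R) * ρ j) ^ (i.1 : ℕ) * ∏ k, (∏ j, α k j ^ a j) ^ ((i.2 k : Fin D) : ℕ)

/-- the grid point `∑ a_i v_i` -/
def gp (v : Fin n → Fin n → ℂ) (a : Fin n → ℕ) : Fin n → ℂ := fun j => ∑ i, (a i : ℂ) * v i j

/-- the word `0^τ₀ 1^τ₁ ..` -/
def tw (τ : Fin n → ℕ) : List (Fin n) := (List.finRange n).flatMap fun j => List.replicate (τ j) j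

end Pool.Agent.BKR
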