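import Pool.Agent.BKR.Defs

/-! # Basis and dual basis of a number field -/

namespace Pool.Agent.BKR

open Module

/-- a common denominator for finitely many rationals -/
theorem trace_exists_den {κ : Type} [Fintype κ] (r : κ → ℚ) :
    ∃ (q : ℕ) (z : κ → ℤ), 0 < q ∧ ∀ x, (q : ℚ) * r x = (z x : ℚ) := by
  classical
  refine ⟨∏ x, (r x).den, fun x => (∏ y ∈ Finset.univ.erase x, ((r y).den : ℤ)) * (r x).num,
    Finset.prod_pos fun x _ => (r x).den_pos, fun x => ?_⟩
  have h1 : ((∏ y, (r y).den : ℕ) : ℚ) = (∏ y ∈ Finset.univ.erase x, ((r y).den : ℚ)) * (r x).den := by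
    push_cast
    rw [Finset.prod_erase_mul _ _ (Finset.mem_univ x)]
  rw [h1, mul_assoc, Rat.den_mul_eq_num]
  push_cast
  ring

/-- integral structure constants and dual basis: everything that is needed about the field -/
theorem exists_basis (k : Type) [Field k] [NumberField k] {ι : Type} [Fintype ι] (β : ι → k) :
    ∃ (δ : ℕ) (e e' : Fin δ → k) (q : ℕ) (cc : ι → Fin δ → Fin δ → ℤ) (σs : Fin δ ≃ (k →+* ℂ)),
      0 < q ∧ (LinearIndependent ℚ e') ∧
      (∀ j i, (q : k) * (e i * β j) = ∑ m, (cc j i m : k) * e m) ∧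
      (∀ s s' : Fin δ, ∑ m, σs s (e m) * σs s' (e' m) = if s = s' then 1 else 0) ∧
      (∀ i m : Fin δ, ∑ s, σs s (e i) * σs s (e' m) = if i = m then 1 else 0) := by
  classical
  let b := finBasis ℚ k
  have hB : (Algebra.traceForm ℚ k).Nondegenerate := traceForm_nondegenerate ℚ k
  let b' := (Algebra.traceForm ℚ k).dualBasis hB b
  have hcard : Fintype.card (k →+* ℂ) = finrank ℚ k := NumberField.Embeddings.card k ℂ
  let σs : Fin (finrank ℚ k) ≃ (k →+* ℂ) := (Fintype.equivFinOfCardEq hcard).symm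
  obtain ⟨q, z, hq, hz⟩ := trace_exists_den
    (fun x : ι × Fin (finrank ℚ k) × Fin (finrank ℚ k) => b.repr (b x.2.1 * β x.1) x.2.2)
  have h2 : ∀ i m : Fin (finrank ℚ k), ∑ s, σs s (b i) * σs s (b' m) = if i = m then 1 else 0 := by
    intro i m
    have h := LinearMap.BilinForm.apply_dualBasis_right hB (Algebra.traceForm_isSymm ℚ) b i m
    rw [Algebra.traceForm_apply] at h
    have h3 : (algebraMap ℚ ℂ) (Algebra.trace ℚ k (b i * b' m)) = ∑ σ : k →ₐ[ℚ] ℂ, σ (b i * b' m) :=
      trace_eq_sum_embeddings ℂ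
    rw [h] at h3
    have h4 : ∑ s, σs s (b i) * σs s (b' m) = ∑ σ : k →ₐ[ℚ] ℂ, σ (b i * b' m) := by
      rw [← Fintype.sum_equiv (RingHom.equivRatAlgHom k ℂ) (fun σ => σ (b i * b' m))
        (fun σ => σ (b i * b' m)) (fun σ => by simp [RingHom.equivRatAlgHom_apply])]
      rw [← Fintype.sum_equiv σs (fun s => σs s (b i * b' m)) (fun σ => σ (b i * b' m))
        (fun s => rfl)]
      exact Finset.sum_congr rfl fun s _ => (map_mul _ _ _).symm
    rw [h4, ← h3]
    split_ifs <;> simp
  refine ⟨finrank ℚ k, b, b', q, fun j i m => z (j, i, m), σs, hq, b'.linearIndependent, ?_, ?_, h2⟩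
  · intro j i
    have h := b.sum_repr (b i * β j)
    conv_lhs => rw [← h]
    rw [Finset.mul_sum]
    refine Finset.sum_congr rfl fun m _ => ?_
    have h5 := hz (j, i, m)
    simp only at h5
    have h6 : ((q : ℚ) * b.repr (b i * β j) m) • b m = ((z (j, i, m) : ℤ) : ℚ) • b m := by rw [h5]
    rw [mul_smul, Algebra.smul_def (q : ℚ), Algebra.smul_def ((z (j, i, m) : ℤ) : ℚ)] at h6
    simpa using h6
  · intro s s'
    let A : Matrix (Fin (finrank ℚ k)) (Fin (finrank ℚ k)) ℂ := fun i s => σs s (b i)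
    let C : Matrix (Fin (finrank ℚ k)) (Fin (finrank ℚ k)) ℂ := fun s m => σs s (b' m)
    have h7 : A * C = 1 := by
      ext i m
      rw [Matrix.mul_apply, Matrix.one_apply]
      exact h2 i m
    have h8 : C * A = 1 := mul_eq_one_comm.mp h7
    have h9 := congrFun (congrFun h8 s') s
    rw [Matrix.mul_apply, Matrix.one_apply] at h9
    calc ∑ m, σs s (b m) * σs s' (b' m) = ∑ m, C s' m * A m s :=
          Finset.sum_congr rfl fun m _ => mul_comm _ _
      _ = if s' = s then 1 else 0 := h9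
      _ = if s = s' then 1 else 0 := by simp only [eq_comm]

end Pool.Agent.BKR
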