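import Pool.Agent.BKR.SLG
import Pool.Agent.BKR.Trace

/-! # Baker's theorem: the inhomogeneous case from the homogeneous one -/

namespace Pool.Agent.BKR

theorem inh_alg (k : Type) [Field k] [NumberField k] (σ : k →+* ℂ) (x : k) :
    IsAlgebraic ℚ (σ x) := by
  have hx : IsAlgebraic ℚ x := Algebra.IsAlgebraic.isAlgebraic x
  exact hx.algHom σ.toRatAlgHom

/-- the exponential of an integral combination of logarithms of algebraic numbers is algebraic -/
theorem inh_exp {ι : Type} [Fintype ι] (t : ι → ℂ)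
    (he : ∀ i, IsAlgebraic ℚ (Complex.exp (t i))) (c : ι → ℤ) :
    IsAlgebraic ℚ (Complex.exp (∑ i, (c i : ℂ) * t i)) := by
  rw [Complex.exp_sum]
  refine Finset.prod_induction _ (IsAlgebraic ℚ) (fun a b ha hb => ha.mul hb) isAlgebraic_one
    fun i _ => ?_
  rw [Complex.exp_int_mul]
  obtain ⟨n, hn | hn⟩ := Int.eq_nat_or_neg (c i)
  · rw [hn, zpow_natCast]
    exact (he i).pow n
  · rw [hn, zpow_neg, zpow_natCast]
    exact ((he i).pow n).inv

/-- the pairing of the dual basis with the vectors `s_σ σ (e_i)` -/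
theorem inh_pair (k : Type) [Field k] [NumberField k] {ι : Type} [Fintype ι] (t : ι → ℂ)
    (β : ι → k) {δ : ℕ} (e e' : Fin δ → k) (q : ℕ) (cc : ι → Fin δ → Fin δ → ℤ)
    (σs : Fin δ ≃ (k →+* ℂ))
    (hmul : ∀ j i, (q : k) * (e i * β j) = ∑ m, (cc j i m : k) * e m)
    (horth : ∀ i m : Fin δ, ∑ s, σs s (e i) * σs s (e' m) = if i = m then 1 else 0)
    (m i : Fin δ) :
    ∑ s, σs s (e' m) * ((q : ℂ) * (∑ j, σs s (β j) * t j) * σs s (e i)) =
      ∑ j, (cc j i m : ℂ) * t j := by
  have h1 : ∀ s, σs s (e' m) * ((q : ℂ) * (∑ j, σs s (β j) * t j) * σs s (e i)) =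
      ∑ j, t j * ∑ m', (cc j i m' : ℂ) * (σs s (e m') * σs s (e' m)) := by
    intro s
    have h2 : ∀ j, (q : ℂ) * (σs s (e i) * σs s (β j)) = ∑ m', (cc j i m' : ℂ) * σs s (e m') := by
      intro j
      have := congrArg (σs s) (hmul j i)
      simpa [map_sum, map_mul] using this
    rw [Finset.mul_sum, Finset.sum_mul, Finset.mul_sum]
    refine Finset.sum_congr rfl fun j _ => ?_
    have h3 := h2 j
    calc σs s (e' m) * ((q : ℂ) * (σs s (β j) * t j) * σs s (e i))
        = t j * (((q : ℂ) * (σs s (e i) * σs s (β j))) * σs s (e' m)) := by ring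
      _ = t j * ((∑ m', (cc j i m' : ℂ) * σs s (e m')) * σs s (e' m)) := by rw [h3]
      _ = t j * ∑ m', (cc j i m' : ℂ) * (σs s (e m') * σs s (e' m)) := by
          rw [Finset.sum_mul]
          congr 1
          exact Finset.sum_congr rfl fun m' _ => by ring
  rw [Finset.sum_congr rfl fun s _ => h1 s, Finset.sum_comm]
  refine Finset.sum_congr rfl fun j _ => ?_
  rw [← Finset.mul_sum, Finset.sum_comm]
  have h4 : ∀ m', ∑ s, (cc j i m' : ℂ) * (σs s (e m') * σs s (e' m)) =
      (cc j i m' : ℂ) * (if m' = m then 1 else 0) := by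
    intro m'
    rw [← Finset.mul_sum, horth m' m]
  rw [Finset.sum_congr rfl fun m' _ => h4 m']
  simp [mul_comm]

/-- the vectors `(σ (e'_m))_σ` are linearly independent over `ℚ` -/
theorem inh_indep (k : Type) [Field k] [NumberField k] {δ : ℕ} (e' : Fin δ → k)
    (he' : LinearIndependent ℚ e') {n : ℕ} (f : Fin n → (k →+* ℂ)) (s0 : Fin n) :
    LinearIndependent ℚ (fun (m : Fin δ) (s : Fin n) => f s (e' m)) := by
  have h1 : LinearIndependent ℚ (fun m : Fin δ => f s0 (e' m)) := by
    have := he'.map' ((f s0).toRatAlgHom.toLinearMap)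
      (LinearMap.ker_eq_bot.2 (f s0).injective)
    exact this
  exact LinearIndependent.of_comp (LinearMap.proj s0 : (Fin n → ℂ) →ₗ[ℚ] ℂ) h1

theorem inh_of_hom (k : Type) [Field k] [NumberField k] {ι : Type} [Fintype ι] (t : ι → ℂ)
    (he : ∀ i, IsAlgebraic ℚ (Complex.exp (t i))) (β : ι → k)
    (hom : ∀ σ : k →+* ℂ, ∑ i, σ (β i) * t i = 0 → ∀ i, β i = 0)
    (β0 : k) (σ : k →+* ℂ) (h : σ β0 + ∑ i, σ (β i) * t i = 0) : β0 = 0 ∧ ∀ i, β i = 0 := by
  by_cases hβ0 : β0 = 0
  · refine ⟨hβ0, hom σ ?_⟩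
    simpa [hβ0] using h
  exfalso
  obtain ⟨δ, e, e', q, cc, σs, hq, he', hmul, -, horth⟩ := exists_basis k β
  have hne : ∀ s, ∑ j, σs s (β j) * t j ≠ 0 := by
    intro s hs
    have hb := hom (σs s) hs
    apply hβ0
    have h0 : σ β0 = 0 := by simpa [hb] using h
    exact (map_eq_zero σ).1 h0
  obtain ⟨s0, hs0⟩ : ∃ s0, σs s0 = σ := ⟨σs.symm σ, by simp⟩
  have hδ : 0 < δ := s0.pos
  have hqC : (q : ℂ) ≠ 0 := by exact_mod_cast hq.ne'
  refine slg δ δ hδ (fun s => if s = s0 then 1 else 0) (Or.inr ⟨rfl, ?_⟩)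
    (fun m s => σs s (e' m)) (inh_indep k e' he' σs s0)
    (fun i s => (q : ℂ) * (∑ j, σs s (β j) * t j) * σs s (e i)) ?_ ?_ ?_ ?_ ?_
  · intro h0
    have := congrFun h0 s0
    simp at this
  · rw [Fintype.linearIndependent_iff]
    intro c hc m
    have h1 : ∀ s, ∑ i, c i * σs s (e i) = 0 := by
      intro s
      have h2 := congrFun hc s
      simp only [Finset.sum_apply, Pi.smul_apply, smul_eq_mul, Pi.zero_apply] at h2
      have h3 : (q : ℂ) * (∑ j, σs s (β j) * t j) * ∑ i, c i * σs s (e i) = 0 := by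
        rw [Finset.mul_sum, ← h2]
        exact Finset.sum_congr rfl fun i _ => by ring
      exact (mul_eq_zero.1 h3).resolve_left (mul_ne_zero hqC (hne s))
    have h4 : ∑ s, (∑ i, c i * σs s (e i)) * σs s (e' m) = c m := by
      have h5 : ∀ s, (∑ i, c i * σs s (e i)) * σs s (e' m) =
          ∑ i, c i * (σs s (e i) * σs s (e' m)) := by
        intro s
        rw [Finset.sum_mul]
        exact Finset.sum_congr rfl fun i _ => by ring
      rw [Finset.sum_congr rfl fun s _ => h5 s, Finset.sum_comm]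
      have h6 : ∀ i, ∑ s, c i * (σs s (e i) * σs s (e' m)) = c i * (if i = m then 1 else 0) := by
        intro i
        rw [← Finset.mul_sum, horth i m]
      rw [Finset.sum_congr rfl fun i _ => h6 i]
      simp
    rw [← h4]
    simp [h1]
  · intro s
    by_cases hs : s = s0
    · simp [hs, isAlgebraic_one]
    · simp [hs, isAlgebraic_zero]
  · intro m s
    exact inh_alg k (σs s) (e' m)
  · intro i
    have h7 : ∑ s, (if s = s0 then (1 : ℂ) else 0) *
        ((q : ℂ) * (∑ j, σs s (β j) * t j) * σs s (e i)) =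
        σ (-((q : k) * β0 * e i)) := by
      rw [Finset.sum_eq_single s0 (fun b _ hb => by simp [hb]) (fun hb => by simp at hb)]
      have h8 : ∑ j, σ (β j) * t j = - σ β0 := by linear_combination h
      simp only [if_true, one_mul, hs0, h8, map_neg, map_mul, map_natCast]
      ring
    rw [h7]
    exact inh_alg k σ _
  · intro m i
    rw [inh_pair k t β e e' q cc σs hmul horth m i]
    exact inh_exp t he fun j => cc j i m

end Pool.Agent.BKR
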