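import Pool.Agent.BKR.SLG
import Pool.Agent.BKR.Trace
import Pool.Agent.BKR.Inh

/-! # Baker's theorem: the homogeneous case -/

namespace Pool.Agent.BKR

/-- a spanning family of vectors of `ℂ^n` contains a basis -/
theorem hom_sel (δ n : ℕ) (w : Fin δ → Fin n → ℂ)
    (hw : ∀ x : Fin n → ℂ, ∃ y : Fin δ → ℂ, x = ∑ m, y m • w m) :
    ∃ f : Fin n → Fin δ, LinearIndependent ℂ fun i => w (f i) := by
  obtain ⟨κ, a, ha, hspan, hlin⟩ := exists_linearIndependent' ℂ w
  have htop : Submodule.span ℂ (Set.range (w ∘ a)) = ⊤ := by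
    rw [hspan, eq_top_iff]
    intro x _
    obtain ⟨y, hy⟩ := hw x
    rw [hy]
    exact Submodule.sum_mem _ fun m _ => Submodule.smul_mem _ _
      (Submodule.subset_span (Set.mem_range_self m))
  have b : Module.Basis κ ℂ (Fin n → ℂ) := Module.Basis.mk hlin (by rw [htop])
  have e : κ ≃ Fin n := b.indexEquiv (Pi.basisFun ℂ (Fin n))
  exact ⟨fun i => a (e.symm i), hlin.comp e.symm e.symm.injective⟩

theorem baker_hom (k : Type) [Field k] [NumberField k] {ι : Type} [Fintype ι] (t : ι → ℂ)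
    (ht : LinearIndependent ℚ t) (he : ∀ i, IsAlgebraic ℚ (Complex.exp (t i))) (β : ι → k)
    (σ : k →+* ℂ) (h : ∑ i, σ (β i) * t i = 0) : ∀ i, β i = 0 := by
  classical
  by_contra hcon
  obtain ⟨δ, e, e', q, cc, σs, hq, he', hmul, horth1, horth2⟩ := exists_basis k β
  have hqC : (q : ℂ) ≠ 0 := by exact_mod_cast hq.ne'
  obtain ⟨sg, hsg⟩ : ∃ sg : Fin δ → ℂ, sg = fun s => (q : ℂ) * ∑ j, σs s (β j) * t j := ⟨_, rfl⟩
  have hsg' : ∀ s, sg s = (q : ℂ) * ∑ j, σs s (β j) * t j := fun s => by rw [hsg]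
  have hpair : ∀ m i : Fin δ, ∑ s, σs s (e' m) * (sg s * σs s (e i)) =
      ∑ j, (cc j i m : ℂ) * t j := by
    intro m i
    rw [← inh_pair k t β e e' q cc σs hmul horth2 m i]
    exact Finset.sum_congr rfl fun s _ => by rw [hsg']
  obtain ⟨s0, hs0⟩ : ∃ s0, σs s0 = σ := ⟨σs.symm σ, by simp⟩
  have hs00 : sg s0 = 0 := by rw [hsg', hs0, h, mul_zero]
  obtain ⟨S, hS⟩ : ∃ S : Finset (Fin δ), S = Finset.univ.filter fun s => sg s ≠ 0 := ⟨_, rfl⟩
  have hmS : ∀ s, s ∈ S ↔ sg s ≠ 0 := by intro s; rw [hS]; simp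
  have hSne : S.Nonempty := by
    by_contra hemp
    rw [Finset.not_nonempty_iff_eq_empty] at hemp
    have h0 : ∀ s, sg s = 0 := by
      intro s
      by_contra hne
      have := (hmS s).2 hne
      rw [hemp] at this
      simp at this
    have h1 : ∀ j i m, cc j i m = 0 := by
      intro j i m
      have h5 := Fintype.linearIndependent_iff.1 ht (fun j => (cc j i m : ℚ)) (by
        have h6 : ∑ j, (cc j i m : ℂ) * t j = 0 := by
          rw [← hpair m i]
          exact Finset.sum_eq_zero fun s _ => by rw [h0 s]; ring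
        rw [← h6]
        refine Finset.sum_congr rfl fun j _ => ?_
        rw [Algebra.smul_def]
        simp) j
      exact_mod_cast h5
    apply hcon
    intro j
    have h4 : (q : k) * (e s0 * β j) = 0 := by
      rw [hmul j s0]
      exact Finset.sum_eq_zero fun m _ => by rw [h1 j s0 m, Int.cast_zero, zero_mul]
    have hqk : (q : k) ≠ 0 := by exact_mod_cast hq.ne'
    have h4' := (mul_eq_zero.1 h4).resolve_left hqk
    refine (mul_eq_zero.1 h4').resolve_left fun h5 => ?_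
    have h6 := horth2 s0 s0
    rw [if_pos rfl, h5] at h6
    simp at h6
  obtain ⟨n, hnS⟩ : ∃ n, n = S.card := ⟨_, rfl⟩
  have hn : 0 < n := by rw [hnS]; exact hSne.card_pos
  have hnδ : n < δ := by
    have h1 : S ⊂ Finset.univ := by
      refine (Finset.ssubset_univ_iff).2 fun h1 => ?_
      have h4 : s0 ∈ S := by rw [h1]; exact Finset.mem_univ _
      exact (hmS s0).1 h4 hs00
    have h4 := Finset.card_lt_card h1
    rwa [← hnS, Finset.card_univ, Fintype.card_fin] at h4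
  obtain ⟨f0, hf0⟩ : ∃ f0 : Fin n ≃ S, f0 = (S.equivFinOfCardEq hnS.symm).symm := ⟨_, rfl⟩
  have hf0ne : ∀ s : Fin n, sg (f0 s) ≠ 0 := fun s => (hmS _).1 (f0 s).2
  have hf0inj : ∀ s s' : Fin n, ((f0 s : Fin δ) = f0 s') ↔ s = s' := by
    intro s s'
    rw [Subtype.coe_inj, f0.injective.eq_iff]
  -- spanning family
  have hwv : ∀ x : Fin n → ℂ, ∃ y : Fin δ → ℂ,
      x = ∑ m, y m • (fun (i : Fin δ) (s : Fin n) => sg (f0 s) * σs (f0 s) (e i)) m := by
    intro x
    refine ⟨fun m => ∑ s', x s' / sg (f0 s') * σs (f0 s') (e' m), ?_⟩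
    funext s
    have h1 : ∀ m, (∑ s', x s' / sg (f0 s') * σs (f0 s') (e' m)) *
        (sg (f0 s) * σs (f0 s) (e m)) =
        ∑ s', x s' / sg (f0 s') * sg (f0 s) * (σs (f0 s) (e m) * σs (f0 s') (e' m)) := by
      intro m
      rw [Finset.sum_mul]
      exact Finset.sum_congr rfl fun _ _ => by ring
    rw [Finset.sum_apply]
    change x s = ∑ m, (∑ s', x s' / sg (f0 s') * σs (f0 s') (e' m)) *
        (sg (f0 s) * σs (f0 s) (e m))
    rw [Finset.sum_congr rfl fun m _ => h1 m, Finset.sum_comm]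
    have h4 : ∀ s', ∑ m, x s' / sg (f0 s') * sg (f0 s) *
        (σs (f0 s) (e m) * σs (f0 s') (e' m)) =
        x s' / sg (f0 s') * sg (f0 s) * if s = s' then 1 else 0 := by
      intro s'
      rw [← Finset.mul_sum, horth1]
      simp only [hf0inj]
    rw [Finset.sum_congr rfl fun s' _ => h4 s']
    simp only [mul_ite, mul_one, mul_zero, Finset.sum_ite_eq, Finset.mem_univ, if_true]
    rw [div_mul_cancel₀ _ (hf0ne s)]
  obtain ⟨fv, hvlin⟩ := hom_sel δ n _ hwv
  obtain ⟨z0⟩ : Nonempty (Fin n) := ⟨⟨0, hn⟩⟩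
  refine slg n (n + 1) hn 0 (Or.inl rfl)
    (fun k s => σs (f0 s) (e' (Fin.castLE hnδ k)))
    ((inh_indep k e' he' (fun s : Fin n => σs (f0 s)) z0).comp (Fin.castLE hnδ)
      (Fin.castLE_injective hnδ))
    (fun i s => sg (f0 s) * σs (f0 s) (e (fv i))) hvlin ?_ ?_ ?_ ?_
  · intro j
    exact isAlgebraic_zero
  · intro k' j
    exact inh_alg k (σs (f0 j)) _
  · intro i
    simp only [Pi.zero_apply, zero_mul, Finset.sum_const_zero]
    exact isAlgebraic_zero
  · intro k' i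
    have h9 : ∑ s : Fin n, σs (f0 s) (e' (Fin.castLE hnδ k')) *
        (sg (f0 s) * σs (f0 s) (e (fv i))) =
        ∑ j, (cc j (fv i) (Fin.castLE hnδ k') : ℂ) * t j := by
      rw [← hpair (Fin.castLE hnδ k') (fv i)]
      have h1 : ∑ s, σs s (e' (Fin.castLE hnδ k')) * (sg s * σs s (e (fv i))) =
          ∑ s ∈ S, σs s (e' (Fin.castLE hnδ k')) * (sg s * σs s (e (fv i))) := by
        refine (Finset.sum_subset (Finset.subset_univ S) fun s _ hs => ?_).symm
        have h4 : sg s = 0 := by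
          by_contra hne
          exact hs ((hmS s).2 hne)
        rw [h4]
        ring
      rw [h1, ← Finset.sum_coe_sort S, ← f0.sum_comp]
    rw [h9]
    exact inh_exp t he fun j => cc j (fv i) (Fin.castLE hnδ k')

theorem baker_inh (k : Type) [Field k] [NumberField k] {ι : Type} [Fintype ι] (t : ι → ℂ)
    (ht : LinearIndependent ℚ t) (he : ∀ i, IsAlgebraic ℚ (Complex.exp (t i))) (β0 : k)
    (β : ι → k) (σ : k →+* ℂ) (h : σ β0 + ∑ i, σ (β i) * t i = 0) :
    β0 = 0 ∧ ∀ i, β i = 0 :=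
  inh_of_hom k t he β (fun σ' h' => baker_hom k t ht he β σ' h') β0 σ h

end Pool.Agent.BKR
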