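import Pool.Agent.BKR.Words
import Pool.Agent.BKR.Ana

/-! # Non-vanishing -/

namespace Pool.Agent.BKR

variable {n d D0 D : ℕ}

/-- `T_w - μ` -/
private noncomputable def linS (g : Fin n → ℂ) (l : Fin d → Fin n → ℂ) (w : Fin n → ℂ) (μ : ℂ)
    (c : Idx D0 D d → ℂ) : Idx D0 D d → ℂ := fun i => T g l w c i - μ * c i

private theorem lin_F_S (g : Fin n → ℂ) (l : Fin d → Fin n → ℂ) (w : Fin n → ℂ) (μ : ℂ)
    (c : Idx D0 D d → ℂ) (h : ∀ z, F g l c z = 0) (z : Fin n → ℂ) :
    F g l (linS g l w μ c) z = 0 := by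
  have h1 := hasDerivAt_F g l c z w 0
  have h2 : (fun s : ℂ => F g l c (fun j => z j + s * w j)) = fun _ => 0 := funext fun s => h _
  rw [h2] at h1
  have h3 := h1.unique (hasDerivAt_const (0 : ℂ) (0 : ℂ))
  have h4 : (fun j => z j + (0 : ℂ) * w j) = z := by
    funext j
    ring
  rw [h4] at h3
  have h5 : F g l (linS g l w μ c) z = F g l (T g l w c) z - μ * F g l c z := by
    unfold F linS
    rw [Finset.mul_sum, ← Finset.sum_sub_distrib]
    exact Finset.sum_congr rfl fun i _ => by ring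
  rw [h5, h3, h z]
  ring

private theorem lin_S_apply (g : Fin n → ℂ) (l : Fin d → Fin n → ℂ) (w : Fin n → ℂ) (μ : ℂ)
    (c : Idx D0 D d → ℂ) (a : Fin D0) (m : Fin d → Fin D) :
    linS g l w μ c (a, m) = (lam l m w - μ) * c (a, m) + if h : (a : ℕ) + 1 < D0 then
      (((a : ℕ) + 1 : ℕ) : ℂ) * (∑ j, g j * w j) * c (⟨(a : ℕ) + 1, h⟩, m) else 0 := by
  unfold linS T
  simp only
  ring

/-- a zero block stays zero -/
private theorem lin_S_zero (g : Fin n → ℂ) (l : Fin d → Fin n → ℂ) (w : Fin n → ℂ) (μ : ℂ)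
    (c : Idx D0 D d → ℂ) (m : Fin d → Fin D) (b : ℕ) (h : ∀ a : Fin D0, b ≤ a → c (a, m) = 0)
    (a : Fin D0) (ha : b ≤ a) : linS g l w μ c (a, m) = 0 := by
  rw [lin_S_apply, h a ha, mul_zero, zero_add]
  by_cases h1 : (a : ℕ) + 1 < D0
  · rw [dif_pos h1, h ⟨(a : ℕ) + 1, h1⟩ (by simp only; omega), mul_zero]
  · rw [dif_neg h1]

/-- the eigenvalue of the block: the top goes down by one -/
private theorem lin_S_down (g : Fin n → ℂ) (l : Fin d → Fin n → ℂ) (w : Fin n → ℂ)
    (c : Idx D0 D d → ℂ) (m : Fin d → Fin D) (b : ℕ)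
    (h : ∀ a : Fin D0, b + 1 ≤ a → c (a, m) = 0)
    (a : Fin D0) (ha : b ≤ a) : linS g l w (lam l m w) c (a, m) = 0 := by
  rw [lin_S_apply, sub_self, zero_mul, zero_add]
  by_cases h1 : (a : ℕ) + 1 < D0
  · rw [dif_pos h1, h ⟨(a : ℕ) + 1, h1⟩ (by simp only; omega), mul_zero]
  · rw [dif_neg h1]

private theorem lin_S_kill (g : Fin n → ℂ) (l : Fin d → Fin n → ℂ) (w : Fin n → ℂ)
    (m : Fin d → Fin D) (k : ℕ) (c : Idx D0 D d → ℂ)
    (h : ∀ a : Fin D0, k ≤ a → c (a, m) = 0) :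
    ∀ a : Fin D0, (linS g l w (lam l m w))^[k] c (a, m) = 0 := by
  induction k generalizing c with
  | zero => exact fun a => h a (Nat.zero_le _)
  | succ k ih =>
    intro a
    rw [Function.iterate_succ_apply]
    exact ih _ (fun a ha => lin_S_down g l w c m k h a ha) a

private theorem lin_iter_zero (g : Fin n → ℂ) (l : Fin d → Fin n → ℂ) (w : Fin n → ℂ) (μ : ℂ)
    (m : Fin d → Fin D) (b : ℕ) (k : ℕ) (c : Idx D0 D d → ℂ)
    (h : ∀ a : Fin D0, b ≤ a → c (a, m) = 0) :
    ∀ a : Fin D0, b ≤ a → (linS g l w μ)^[k] c (a, m) = 0 := by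
  induction k generalizing c with
  | zero => exact h
  | succ k ih =>
    rw [Function.iterate_succ_apply]
    exact ih _ fun a ha => lin_S_zero g l w μ c m b h a ha

private theorem lin_iter_F (g : Fin n → ℂ) (l : Fin d → Fin n → ℂ) (w : Fin n → ℂ) (μ : ℂ)
    (k : ℕ) (c : Idx D0 D d → ℂ) (h : ∀ z, F g l c z = 0) :
    ∀ z, F g l ((linS g l w μ)^[k] c) z = 0 := by
  induction k generalizing c with
  | zero => exact h
  | succ k ih =>
    rw [Function.iterate_succ_apply]
    exact ih _ fun z => lin_F_S g l w μ c h z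

private theorem lin_iter_top (g : Fin n → ℂ) (l : Fin d → Fin n → ℂ) (w : Fin n → ℂ) (μ : ℂ)
    (m : Fin d → Fin D) (hm : lam l m w ≠ μ) (k : ℕ) (c : Idx D0 D d → ℂ) (a0 : Fin D0)
    (h : ∀ a : Fin D0, (a0 : ℕ) + 1 ≤ a → c (a, m) = 0) (h0 : c (a0, m) ≠ 0) :
    (linS g l w μ)^[k] c (a0, m) ≠ 0 := by
  induction k generalizing c with
  | zero => exact h0
  | succ k ih =>
    rw [Function.iterate_succ_apply]
    refine ih _ (fun a ha => lin_S_zero g l w μ c m ((a0 : ℕ) + 1) h a ha) ?_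
    rw [lin_S_apply]
    have h1 : (if h : (a0 : ℕ) + 1 < D0 then
      (((a0 : ℕ) + 1 : ℕ) : ℂ) * (∑ j, g j * w j) * c (⟨(a0 : ℕ) + 1, h⟩, m) else 0) = 0 := by
      by_cases h1 : (a0 : ℕ) + 1 < D0
      · rw [dif_pos h1, h ⟨(a0 : ℕ) + 1, h1⟩ (le_refl _), mul_zero]
      · rw [dif_neg h1]
    rw [h1, add_zero]
    exact mul_ne_zero (sub_ne_zero.2 hm) h0

private theorem lin_sep (l : Fin d → Fin n → ℂ) (hl : LinearIndependent ℚ l)
    (m m' : Fin d → Fin D) (hm : m ≠ m') : ∃ w, lam l m w ≠ lam l m' w := by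
  by_contra hcon
  simp only [not_exists, not_not, ne_eq] at hcon
  apply hm
  have h1 : ∑ k, ((((m k : ℕ) : ℚ)) - ((m' k : ℕ) : ℚ)) • l k = 0 := by
    funext j
    have h2 := hcon (uv ℂ j)
    unfold lam uv at h2
    simp only [mul_ite, mul_one, mul_zero, Finset.sum_ite_eq', Finset.mem_univ, if_true] at h2
    have h3 : ∀ k, (((((m k : ℕ) : ℚ)) - ((m' k : ℕ) : ℚ)) • l k) j =
        ((m k : ℕ) : ℂ) * l k j - ((m' k : ℕ) : ℂ) * l k j := by
      intro k
      rw [Pi.smul_apply, Rat.smul_def]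
      push_cast
      ring
    rw [Finset.sum_apply, Finset.sum_congr rfl fun k _ => h3 k, Finset.sum_sub_distrib, h2,
      sub_self]
    rfl
  have h4 := Fintype.linearIndependent_iff.1 hl _ h1
  funext k
  have h5 := sub_eq_zero.1 (h4 k)
  exact Fin.ext (by exact_mod_cast h5)

private theorem lin_one_block (g : Fin n → ℂ) (l : Fin d → Fin n → ℂ)
    (hg : D0 ≤ 1 ∨ g ≠ 0) (m : Fin d → Fin D) (b : ℕ) (hb : b < D0) (c : Idx D0 D d → ℂ)
    (h : ∀ z, F g l c z = 0) (h0 : ∀ a m', m' ≠ m → c (a, m') = 0)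
    (h1 : ∀ a : Fin D0, b + 1 ≤ a → c (a, m) = 0) : c (⟨b, hb⟩, m) = 0 := by
  induction b generalizing c with
  | zero =>
    have h2 := h 0
    unfold F at h2
    rw [Finset.sum_eq_single ((⟨0, hb⟩ : Fin D0), m)] at h2
    · simpa [Complex.exp_ne_zero] using h2
    · rintro ⟨a, m'⟩ _ hne
      by_cases hmm : m' = m
      · subst hmm
        have ha : (0 : ℕ) + 1 ≤ a := by
          rcases Nat.eq_zero_or_pos (a : ℕ) with h3 | h3
          · exact absurd (by ext <;> simp [h3]) hne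
          · omega
        rw [h1 a ha]
        ring
      · rw [h0 a m' hmm]
        ring
    · intro hmem
      exact absurd (Finset.mem_univ _) hmem
  | succ b ih =>
    have hg' : g ≠ 0 := by
      rcases hg with hg | hg
      · omega
      · exact hg
    obtain ⟨j, hj⟩ := Function.ne_iff.1 hg'
    have h2 := ih (by omega) (linS g l (uv ℂ j) (lam l m (uv ℂ j)) c)
      (fun z => lin_F_S g l _ _ c h z)
      (fun a m' hm' => lin_S_zero g l _ _ c m' 0 (fun a _ => h0 a m' hm') a (Nat.zero_le _))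
      (fun a ha => lin_S_down g l _ c m (b + 1) h1 a ha)
    rw [lin_S_apply, sub_self, zero_mul, zero_add, dif_pos (by simpa using hb)] at h2
    have h3 : ∑ i, g i * uv ℂ j i = g j := by
      unfold uv
      simp
    rw [h3] at h2
    rcases mul_eq_zero.1 h2 with h4 | h4
    · rcases mul_eq_zero.1 h4 with h5 | h5
      · exact absurd h5 (Nat.cast_ne_zero.2 (Nat.succ_ne_zero b))
      · exact absurd h5 hj
    · exact h4

/-- the functions `(g · z)^a exp ((∑ m_k l_k) · z)` are linearly independent -/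
theorem F_eq_zero (g : Fin n → ℂ) (l : Fin d → Fin n → ℂ) (hl : LinearIndependent ℚ l)
    (hg : D0 ≤ 1 ∨ g ≠ 0) (c : Idx D0 D d → ℂ) (h : ∀ z, F g l c z = 0) : c = 0 := by
  classical
  by_contra hc
  obtain ⟨⟨a1, m0⟩, ha1⟩ := Function.ne_iff.1 hc
  simp only [Pi.zero_apply] at ha1
  -- the top index of the block `m0`
  let A : Finset (Fin D0) := Finset.univ.filter fun a => c (a, m0) ≠ 0
  have hA : A.Nonempty := ⟨a1, by simp [A, ha1]⟩
  let a0 := A.max' hA
  have ha0 : c (a0, m0) ≠ 0 := by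
    have := A.max'_mem hA
    simpa [A] using this
  have hgt : ∀ a : Fin D0, (a0 : ℕ) + 1 ≤ a → c (a, m0) = 0 := by
    intro a ha
    by_contra hca
    have hmem : a ∈ A := by simp [A, hca]
    have := A.le_max' a hmem
    have h6 : (a : ℕ) ≤ a0 := by exact_mod_cast this
    omega
  -- kill the other blocks
  have key : ∀ M : Finset (Fin d → Fin D), m0 ∉ M → ∃ c' : Idx D0 D d → ℂ,
      (∀ z, F g l c' z = 0) ∧ c' (a0, m0) ≠ 0 ∧ (∀ a : Fin D0, (a0 : ℕ) + 1 ≤ a → c' (a, m0) = 0) ∧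
      ∀ m ∈ M, ∀ a, c' (a, m) = 0 := by
    intro M
    induction M using Finset.induction_on with
    | empty => exact fun _ => ⟨c, h, ha0, hgt, by simp⟩
    | insert m M hmM ih =>
      intro hm0
      rw [Finset.mem_insert, not_or] at hm0
      obtain ⟨c', h1, h2, h3, h4⟩ := ih hm0.2
      obtain ⟨w, hw⟩ := lin_sep l hl m0 m hm0.1
      refine ⟨(linS g l w (lam l m w))^[D0] c', lin_iter_F g l w _ D0 c' h1,
        lin_iter_top g l w _ m0 hw D0 c' a0 h3 h2,
        lin_iter_zero g l w _ m0 _ D0 c' h3, ?_⟩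
      intro m' hm' a
      rcases Finset.mem_insert.1 hm' with rfl | hm'
      · exact lin_S_kill g l w _ D0 c' (fun a ha => absurd a.2 (by omega)) a
      · exact lin_iter_zero g l w _ m' 0 D0 c' (fun a _ => h4 m' hm' a) a (Nat.zero_le _)
  obtain ⟨c', h1, h2, h3, h4⟩ := key (Finset.univ.erase m0) (Finset.notMem_erase _ _)
  exact h2 (lin_one_block g l hg m0 a0 a0.2 c' h1
    (fun a m' hm' => h4 m' (Finset.mem_erase.2 ⟨hm', Finset.mem_univ _⟩) a) h3)

private theorem lin_entire_zero (G : ℂ → ℂ) (hG : Differentiable ℂ G) (z0 : ℂ)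
    (h : ∀ t, iteratedDeriv t G z0 = 0) (z : ℂ) : G z = 0 := by
  have han : AnalyticOnNhd ℂ G Set.univ := fun w _ => hG.analyticAt w
  have hord : analyticOrderAt G z0 = ⊤ := by
    rw [ENat.eq_top_iff_forall_ge]
    intro m
    exact (natCast_le_analyticOrderAt_iff_iteratedDeriv_eq_zero (hG.analyticAt z0)).2
      fun t _ => h t
  have hev := analyticOrderAt_eq_top.1 hord
  exact han.eqOn_zero_of_preconnected_of_eventuallyEq_zero isPreconnected_univ
    (Set.mem_univ z0) hev (Set.mem_univ z)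

/-- so some derivative does not vanish at the point `z` -/
theorem exists_word (g : Fin n → ℂ) (l : Fin d → Fin n → ℂ) (hl : LinearIndependent ℚ l)
    (hg : D0 ≤ 1 ∨ g ≠ 0) (c : Idx D0 D d → ℂ) (hc : c ≠ 0) (z : Fin n → ℂ) :
    ∃ js : List (Fin n), F g l (TW g l (js.map (uv ℂ)) c) z ≠ 0 := by
  by_contra hcon
  simp only [not_exists, not_not, ne_eq] at hcon
  refine hc (F_eq_zero g l hl hg c fun x => ?_)
  have h1 : ∀ k : ℕ, iteratedDeriv k
      (fun s : ℂ => F g l c (fun j => z j + s * (x j - z j))) 0 = 0 := by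
    intro k
    rw [iteratedDeriv_F]
    have h2 := words_zero g l c z (k + 1) (fun js _ => hcon js)
      (List.replicate k fun j => x j - z j) (by simp)
    have h3 : (fun j => z j + (0 : ℂ) * (x j - z j)) = z := by
      funext j
      ring
    rw [h3]
    exact h2
  have h4 := lin_entire_zero _ (differentiable_F g l c z fun j => x j - z j) 0 h1 1
  have h5 : (fun j => z j + (1 : ℂ) * (x j - z j)) = x := by
    funext j
    ring
  simp only [h5] at h4
  exact h4

end Pool.Agent.BKR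

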