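import Pool.Agent.ZFin.Schwarz

/-! # Schwarz' lemma on a line with `N` zeros of order `τ` -/

namespace Pool.Agent.BKR
open Pool.Agent.ZFin

/-- copy of `CHU/SL2B.schwarz_line` (imports only Mathlib here) -/
theorem schwarz_line (N τ : ℕ) (G : ℂ → ℂ) (hG : Differentiable ℂ G) (β : Fin N → ℂ)
    (hinj : Function.Injective β) (hβ : ∀ i, ‖β i‖ ≤ N)
    (hz : ∀ i, ∀ t < τ, iteratedDeriv t G (β i) = 0) (R S : ℝ) (hR : (N : ℝ) + 1 ≤ R)
    (hS0 : 0 ≤ S)
    (hS : ∀ z, ‖z‖ = R → ‖G z‖ ≤ S) (i : Fin N) :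
    ‖iteratedDeriv τ G (β i)‖ ≤ τ.factorial * (S * ((2 * N + 1) / (R - N)) ^ (N * τ)) := by
  have hN : (0 : ℝ) ≤ N := Nat.cast_nonneg _
  have h1 : ∀ z, ‖z‖ ≤ (N : ℝ) + 1 → ‖G z‖ ≤ S * ((2 * N + 1) / (R - N)) ^ (N * τ) := by
    intro z hzn
    have h := schwarz_many N τ β hinj G hG hz N R S hβ hN (by linarith) hS z (by linarith)
    refine h.trans ?_
    have h3 : 0 < R - N := by linarith
    have h4 : ‖z‖ + N ≤ 2 * N + 1 := by linarith
    have := norm_nonneg z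
    gcongr
  have h2 := Complex.norm_iteratedDeriv_le_of_forall_mem_sphere_norm_le τ (c := β i) (R := 1)
    (f := G) (C := S * ((2 * N + 1) / (R - N)) ^ (N * τ)) one_pos hG.diffContOnCl (fun z hz => by
      refine h1 z ?_
      have h3 : ‖z - β i‖ = 1 := by simpa using hz
      calc ‖z‖ = ‖(z - β i) + β i‖ := by ring_nf
        _ ≤ ‖z - β i‖ + ‖β i‖ := norm_add_le _ _
        _ ≤ 1 + N := by rw [h3]; linarith [hβ i]
        _ = N + 1 := by ring)
  simpa using h2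

end Pool.Agent.BKR
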