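import Pool.Agent.BKR.Words
import Pool.Agent.BKR.Ana
import Pool.Agent.BKR.Schw

/-! # The bound for words in the directions of the grid -/

namespace Pool.Agent.BKR

variable {n d D0 D : ℕ}

theorem word_bound (hn : 0 < n) (g : Fin n → ℂ) (l : Fin d → Fin n → ℂ)
    (v : Fin n → Fin n → ℂ) (c : Idx D0 D d → ℂ) (N t : ℕ)
    (hz : ∀ a : Fin n → ℕ, (∀ i, a i < N) → ∀ ws : List (Fin n → ℂ), ws.length < t →
      F g l (TW g l ws c) (gp v a) = 0)
    (B V R : ℝ) (hB : 1 ≤ B) (hV : 1 ≤ V) (hR : (N : ℝ) + 1 ≤ R)
    (hg : ∀ j, ‖g j‖ ≤ B) (hl : ∀ k j, ‖l k j‖ ≤ B) (hv : ∀ i j, ‖v i j‖ ≤ V)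
    (hD : 1 ≤ d * D + D0) (is : List (Fin n)) (his : is.length = t)
    (a : Fin n → ℕ) (ha : ∀ i, a i < N) :
    ‖F g l (TW g l (is.map v) c) (gp v a)‖ ≤ t.factorial *
      (((n * B * V * (d * D + D0)) ^ t * (∑ i, ‖c i‖) * (n * B * (V * (n * N + R))) ^ D0 *
        Real.exp (d * D * (n * B * (V * (n * N + R))))) *
        ((2 * N + 1) / (R - N)) ^ (N * (t / n))) := by
  classical
  obtain ⟨j, rest, hperm⟩ := exists_rep hn is
  rw [his] at hperm
  set τ := t / n with hτ
  have hlen : τ + rest.length = t := by
    have := hperm.length_eq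
    rw [his, List.length_append, List.length_replicate] at this
    omega
  -- the function on the line
  set w := v j with hw
  set c' := TW g l (rest.map v) c with hc'
  set z : Fin n → ℂ := fun j' => gp v a j' - (a j : ℂ) * w j' with hzdef
  set G : ℂ → ℂ := fun s => F g l c' (fun j' => z j' + s * w j') with hG
  have hGd : Differentiable ℂ G := differentiable_F g l c' z w
  have hgp : ∀ b : ℕ, (fun j' => z j' + (b : ℂ) * w j') = gp v (Function.update a j b) := by
    intro b
    funext j'
    simp only [hzdef, gp, hw]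
    rw [← Finset.add_sum_erase _ _ (Finset.mem_univ j),
      ← Finset.add_sum_erase Finset.univ
        (fun i => ((Function.update a j b i : ℕ) : ℂ) * v i j') (Finset.mem_univ j),
      Function.update_self]
    have : ∑ x ∈ Finset.univ.erase j, ((Function.update a j b x : ℕ) : ℂ) * v x j'
        = ∑ x ∈ Finset.univ.erase j, (a x : ℂ) * v x j' := by
      refine Finset.sum_congr rfl fun x hx => ?_
      have hx' : x ≠ j := Finset.ne_of_mem_erase hx
      rw [Function.update_of_ne hx']
    rw [this]
    ring
  have hiter : ∀ (k b : ℕ), iteratedDeriv k G (b : ℂ) =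
      F g l (TW g l (List.replicate k w ++ rest.map v) c) (gp v (Function.update a j b)) := by
    intro k b
    rw [hG, iteratedDeriv_F, hgp, hc', TW_append]
  have hzero : ∀ i : Fin N, ∀ k < τ, iteratedDeriv k G ((i : ℕ) : ℂ) = 0 := by
    intro i k hk
    rw [hiter]
    refine hz _ (fun i' => ?_) _ ?_
    · by_cases h : i' = j
      · subst h
        rw [Function.update_self]
        exact i.2
      · rw [Function.update_of_ne h]
        exact ha i'
    · rw [List.length_append, List.length_replicate, List.length_map]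
      omega
  have hn1 : (1 : ℝ) ≤ n := by exact_mod_cast hn
  have hN0 : (0 : ℝ) ≤ N := Nat.cast_nonneg N
  have hR1 : 1 ≤ R := by linarith
  have hD' : (1 : ℝ) ≤ d * D + D0 := by exact_mod_cast hD
  have hV0 : 0 ≤ V := by linarith
  have hB0 : 0 ≤ B := by linarith
  set Z : ℝ := V * (n * N + R) with hZ
  have hZ1 : 1 ≤ Z := by
    have : 1 ≤ (n : ℝ) * N + R := by nlinarith
    nlinarith
  have hnBZ : 1 ≤ n * B * Z := by
    have : 1 ≤ (n : ℝ) * B := by nlinarith
    nlinarith
  set P : ℝ := n * B * V * (d * D + D0) with hP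
  have hP1 : 1 ≤ P := by
    have h1 : 1 ≤ (n : ℝ) * B := by nlinarith
    have h2 : 1 ≤ (n : ℝ) * B * V := by nlinarith
    rw [hP]
    nlinarith
  have hsumc : 0 ≤ ∑ i, ‖c i‖ := Finset.sum_nonneg fun i _ => norm_nonneg _
  set S : ℝ := P ^ t * (∑ i, ‖c i‖) * (n * B * Z) ^ D0 * Real.exp (d * D * (n * B * Z)) with hS
  have hS0 : 0 ≤ S := by positivity
  have hbound : ∀ s : ℂ, ‖s‖ = R → ‖G s‖ ≤ S := by
    intro s hs
    have h1 := norm_F_le g l c' (fun j' => z j' + s * w j') B Z hB0 (by linarith) hg hl
      (fun j' => ?_) hnBZ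
    · refine h1.trans ?_
      have h2 : ∑ i, ‖c' i‖ ≤ P ^ t * ∑ i, ‖c i‖ := by
        have h3 := TW_l1 g l (rest.map v) c B V hB0 hV0 hg hl (by
          intro x hx j'
          obtain ⟨i', -, rfl⟩ := List.mem_map.1 hx
          exact hv i' j')
        rw [List.length_map] at h3
        refine h3.trans (mul_le_mul_of_nonneg_right ?_ hsumc)
        exact pow_le_pow_right₀ hP1 (by clear_value τ; omega)
      rw [hS]
      gcongr
    · -- the size of the point
      have h3 : ‖z j'‖ ≤ V * (n * N) := by
        have h4 : z j' = ∑ i ∈ Finset.univ.erase j, (a i : ℂ) * v i j' := by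
          simp only [hzdef, gp, hw]
          rw [← Finset.add_sum_erase _ _ (Finset.mem_univ j)]
          ring
        rw [h4]
        refine (norm_sum_le _ _).trans ?_
        have h5 : ∀ i ∈ Finset.univ.erase j, ‖(a i : ℂ) * v i j'‖ ≤ V * N := by
          intro i _
          rw [norm_mul, Complex.norm_natCast, mul_comm]
          have : (a i : ℝ) ≤ N := by exact_mod_cast (ha i).le
          exact mul_le_mul (hv i j') this (Nat.cast_nonneg _) hV0
        refine (Finset.sum_le_sum h5).trans ?_
        rw [Finset.sum_const, nsmul_eq_mul]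
        have h6 : ((Finset.univ.erase j : Finset (Fin n)).card : ℝ) ≤ n := by
          have := Finset.card_le_univ (Finset.univ.erase j : Finset (Fin n))
          rw [Fintype.card_fin] at this
          exact_mod_cast this
        calc ((Finset.univ.erase j : Finset (Fin n)).card : ℝ) * (V * N) ≤ n * (V * N) := by
              gcongr
          _ = V * (n * N) := by ring
      calc ‖z j' + s * w j'‖ ≤ ‖z j'‖ + ‖s‖ * ‖w j'‖ := (norm_add_le _ _).trans
            (by rw [norm_mul])
        _ ≤ V * (n * N) + R * V := by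
            rw [hs]
            gcongr
            exact hv j j'
        _ = Z := by rw [hZ]; ring
  have hinj : Function.Injective (fun i : Fin N => ((i : ℕ) : ℂ)) := by
    intro x y h
    exact Fin.ext (Nat.cast_injective (R := ℂ) h)
  have key := schwarz_line N τ G hGd (fun i => ((i : ℕ) : ℂ)) hinj
    (fun i => by
      rw [Complex.norm_natCast]
      exact_mod_cast i.2.le) hzero R S hR hS0 hbound ⟨a j, ha j⟩
  simp only at key
  rw [hiter τ (a j), Function.update_eq_self] at key
  have hTW : TW g l (is.map v) c = TW g l (List.replicate τ w ++ rest.map v) c := by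
    refine TW_perm g l ?_ c
    have := hperm.map v
    rwa [List.map_append, List.map_replicate] at this
  rw [hTW]
  refine key.trans ?_
  have hfac : (τ.factorial : ℝ) ≤ t.factorial := by
    exact_mod_cast Nat.factorial_le (by omega : τ ≤ t)
  have hq : 0 ≤ ((2 * N + 1) / (R - N) : ℝ) ^ (N * τ) :=
    pow_nonneg (div_nonneg (by positivity) (by linarith)) _
  have h7 : 0 ≤ S * ((2 * N + 1) / (R - N) : ℝ) ^ (N * τ) := mul_nonneg hS0 hq
  exact mul_le_mul_of_nonneg_right hfac h7

end Pool.Agent.BKR
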