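import Pool.Agent.BKR.Defs

/-! # Liouville's inequality, number fields, denominators -/

namespace Pool.Agent.BKR

open NumberField

private theorem liou_house_le (K : Type) [Field K] [NumberField K] (ξ : K) (H : ℝ)
    (h : ∀ σ : K →+* ℂ, ‖σ ξ‖ ≤ H) : house ξ ≤ H := by
  have h0 : 0 ≤ H := by
    obtain ⟨σ⟩ : Nonempty (K →+* ℂ) := inferInstance
    exact (norm_nonneg _).trans (h σ)
  rw [house]
  exact (pi_norm_le_iff_of_nonneg h0).2 fun σ => h σ

theorem liouville (K : Type) [Field K] [NumberField K] (ι : K →+* ℂ) (ξ : K) (hξ : ξ ≠ 0)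
    (b : ℕ) (hb : 1 ≤ b) (hint : IsIntegral ℤ ((b : K) * ξ)) (H : ℝ) (hH : 1 ≤ H)
    (h : ∀ σ : K →+* ℂ, ‖σ ξ‖ ≤ H) :
    1 ≤ ‖ι ξ‖ * ((b : ℝ) ^ Module.finrank ℚ K * H ^ Module.finrank ℚ K) := by
  have hb' : (1 : ℝ) ≤ b := by exact_mod_cast hb
  have hbK : (b : K) ≠ 0 := by
    have : b ≠ 0 := by omega
    exact_mod_cast this
  have hne : (b : K) * ξ ≠ 0 := mul_ne_zero hbK hξ
  -- the norm is a nonzero integer
  have hN : IsIntegral ℤ (Algebra.norm ℚ ((b : K) * ξ)) := Algebra.isIntegral_norm ℚ hint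
  obtain ⟨z, hz⟩ := IsIntegrallyClosed.isIntegral_iff.1 hN
  have hN0 : Algebra.norm ℚ ((b : K) * ξ) ≠ 0 := by
    rw [Ne, Algebra.norm_eq_zero_iff]
    exact hne
  have hz0 : z ≠ 0 := by
    rintro rfl
    rw [map_zero] at hz
    exact hN0 hz.symm
  have h1 : (1 : ℝ) ≤ ‖Algebra.norm ℚ ((b : K) * ξ)‖ := by
    rw [← hz, ← Rat.norm_cast_real]
    have : (((algebraMap ℤ ℚ) z : ℚ) : ℝ) = (z : ℝ) := by simp
    rw [this, Real.norm_eq_abs]
    have : (1 : ℤ) ≤ |z| := Int.one_le_abs hz0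
    exact_mod_cast this
  have h2 := norm_norm_le_norm_mul_house_pow ((b : K) * ξ) ι
  have h3 : house ((b : K) * ξ) ≤ b * H := by
    rw [house_nat_mul]
    exact mul_le_mul_of_nonneg_left (liou_house_le K ξ H h) (by positivity)
  have h4 : ‖ι ((b : K) * ξ)‖ = b * ‖ι ξ‖ := by
    rw [map_mul, map_natCast, norm_mul, Complex.norm_natCast]
  have hfin : Module.finrank ℚ K = (Module.finrank ℚ K - 1) + 1 := by
    have := Module.finrank_pos (R := ℚ) (M := K)
    omega
  have h5 : house ((b : K) * ξ) ^ (Module.finrank ℚ K - 1) ≤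
      (b * H) ^ (Module.finrank ℚ K - 1) :=
    pow_le_pow_left₀ (house_nonneg _) h3 _
  calc (1 : ℝ) ≤ ‖Algebra.norm ℚ ((b : K) * ξ)‖ := h1
    _ ≤ ‖ι ((b : K) * ξ)‖ * house ((b : K) * ξ) ^ (Module.finrank ℚ K - 1) := h2
    _ ≤ (b * ‖ι ξ‖) * (b * H) ^ (Module.finrank ℚ K - 1) := by
        rw [h4]
        exact mul_le_mul_of_nonneg_left h5 (by positivity)
    _ ≤ (b * ‖ι ξ‖) * ((b * H) ^ (Module.finrank ℚ K - 1) * H) := by
        refine mul_le_mul_of_nonneg_left ?_ (by positivity)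
        exact le_mul_of_one_le_right (by positivity) hH
    _ = ‖ι ξ‖ * ((b : ℝ) ^ Module.finrank ℚ K * H ^ Module.finrank ℚ K) := by
        rw [hfin, pow_succ, pow_succ, mul_pow]
        simp only [Nat.add_sub_cancel]
        ring

theorem exists_numberField {ι' : Type} [Fintype ι'] (x : ι' → ℂ) (h : ∀ i, IsAlgebraic ℚ (x i)) :
    ∃ (K : Type) (_ : Field K) (_ : NumberField K) (ι : K →+* ℂ) (y : ι' → K),
      ∀ i, ι (y i) = x i := by
  let L := IntermediateField.adjoin ℚ (Set.range x)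
  have hf : FiniteDimensional ℚ L := by
    refine IntermediateField.finiteDimensional_adjoin ?_
    rintro _ ⟨i, rfl⟩
    exact (h i).isIntegral
  have hn : NumberField L := { to_charZero := inferInstance, to_finiteDimensional := hf }
  exact ⟨L, inferInstance, hn, (algebraMap L ℂ),
    fun i => ⟨x i, IntermediateField.subset_adjoin ℚ _ ⟨i, rfl⟩⟩, fun i => rfl⟩

theorem exists_den (K : Type) [Field K] [NumberField K] {ι' : Type} [Fintype ι'] (y : ι' → K) :
    ∃ b : ℕ, 1 ≤ b ∧ ∀ i, IsIntegral ℤ ((b : K) * y i) := by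
  classical
  have h1 : ∀ i, ∃ r : ℤ, r ≠ 0 ∧ IsIntegral ℤ (r • y i) := fun i => by
    have hq : IsAlgebraic ℚ (y i) := Algebra.IsAlgebraic.isAlgebraic (y i)
    have hz : IsAlgebraic ℤ (y i) := (IsFractionRing.isAlgebraic_iff ℤ ℚ K).2 hq
    exact hz.exists_integral_multiple
  choose r hr0 hr using h1
  refine ⟨∏ i, (r i).natAbs, ?_, fun i => ?_⟩
  · exact Nat.succ_le_of_lt (Finset.prod_pos fun i _ => Int.natAbs_pos.2 (hr0 i))
  · have hdiv : r i ∣ ((∏ j, (r j).natAbs : ℕ) : ℤ) := by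
      refine (Int.dvd_natAbs.2 (dvd_refl (r i))).trans ?_
      exact_mod_cast Finset.dvd_prod_of_mem (fun j => (r j).natAbs) (Finset.mem_univ i)
    obtain ⟨s, hs⟩ := hdiv
    have : ((∏ j, (r j).natAbs : ℕ) : K) * y i = s • (r i • y i) := by
      have h2 : ((∏ j, (r j).natAbs : ℕ) : K) = ((r i * s : ℤ) : K) := by
        rw [← hs, Int.cast_natCast]
      rw [h2]
      simp only [zsmul_eq_mul]
      push_cast
      ring
    rw [this]
    exact (hr i).smul s

theorem exists_size (K : Type) [Field K] [NumberField K] {ι' : Type} [Fintype ι'] (y : ι' → K) :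
    ∃ B : ℝ, 1 ≤ B ∧ ∀ i (σ : K →+* ℂ), ‖σ (y i)‖ ≤ B := by
  refine ⟨1 + ∑ i, house (y i), ?_, fun i σ => ?_⟩
  · have : 0 ≤ ∑ i, house (y i) := Finset.sum_nonneg fun i _ => house_nonneg _
    linarith
  · have h1 : house (y i) ≤ ∑ j, house (y j) :=
      Finset.single_le_sum (f := fun j => house (y j)) (fun j _ => house_nonneg _)
        (Finset.mem_univ i)
    have h2 := norm_embedding_le_house (y i) σ
    linarith

end Pool.Agent.BKR
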