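import Pool.Agent.BKR.Sieg

/-! # The choice of the parameters -/

namespace Pool.Agent.BKR

/-- bound for the sum of the absolute values of the coefficients -/
noncomputable def Sbd (C1 B : ℝ) (b n d D0 D T N : ℕ) : ℝ :=
  (D0 * D ^ d : ℕ) * (C1 * (D0 * D ^ d : ℕ) * Abd B b n d D0 D T N)

/-- the upper bound for the value -/
noncomputable def Ubd (C C1 B V R : ℝ) (b n d D0 D T N t : ℕ) : ℝ :=
  C ^ t * (t.factorial * (((n * B * V * (d * D + D0)) ^ t * Sbd C1 B b n d D0 D T N *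
    (n * B * (V * (n * N + R))) ^ D0 * Real.exp (d * D * (n * B * (V * (n * N + R))))) *
    ((2 * N + 1) / (R - N)) ^ (N * (t / n))))

/-- the bound for the conjugates -/
noncomputable def Hbd (C1 B : ℝ) (b n d D0 D T N t : ℕ) : ℝ :=
  (n * B * (d * D + D0)) ^ t * Sbd C1 B b n d D0 D T N * (n * N * B) ^ D0 *
    B ^ (d * D * (n * N))

namespace Num

theorem ppow {x y : ℝ} {k m : ℕ} (hx : 1 ≤ x) (hxy : x ≤ y) (hkm : k ≤ m) : x ^ k ≤ y ^ m :=
  (pow_le_pow_left₀ (by linarith) hxy k).trans (pow_le_pow_right₀ (by linarith) hkm)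

/-- the relations between the parameters -/
structure Ctx (n N d D0 D T t : ℕ) (R : ℝ) : Prop where
  hR1 : 1 ≤ R
  ht : 1 ≤ t
  hRt : R ^ (n + 1) = t
  hDt : D ≤ t
  hD : (D : ℝ) ≤ 2 * N * R ^ n
  hDR : D * R ≤ 2 * N * t
  hD0 : D0 ≤ D
  hD01 : 1 ≤ D0
  hd : d ≤ n + 1
  hTt : T ≤ t
  hDD : D0 * D ^ d = D ^ (n + 1)

/-- `X` is at most `(K R ^ e) ^ t` -/
def Adm (n N e : ℕ) (X : ℕ → ℕ → ℕ → ℕ → ℕ → ℝ → ℝ) : Prop :=
  ∃ K : ℝ, 0 ≤ K ∧ ∀ d D0 D T t R, Ctx n N d D0 D T t R →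
    0 ≤ X d D0 D T t R ∧ X d D0 D T t R ≤ (K * R ^ e) ^ t

variable {n N e e' : ℕ} {X Y : ℕ → ℕ → ℕ → ℕ → ℕ → ℝ → ℝ}

theorem Adm.mul (hX : Adm n N e X) (hY : Adm n N e' Y) :
    Adm n N (e + e') fun d D0 D T t R => X d D0 D T t R * Y d D0 D T t R := by
  obtain ⟨K, hK, h⟩ := hX
  obtain ⟨K', hK', h'⟩ := hY
  refine ⟨K * K', mul_nonneg hK hK', fun d D0 D T t R c => ?_⟩
  obtain ⟨h1, h2⟩ := h d D0 D T t R c
  obtain ⟨h3, h4⟩ := h' d D0 D T t R c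
  refine ⟨mul_nonneg h1 h3, ?_⟩
  calc X d D0 D T t R * Y d D0 D T t R ≤ (K * R ^ e) ^ t * (K' * R ^ e') ^ t :=
        mul_le_mul h2 h4 h3 (h1.trans h2)
    _ = (K * K' * R ^ (e + e')) ^ t := by rw [← mul_pow, pow_add]; ring

theorem Adm.pow (hX : Adm n N e X) (δ : ℕ) :
    Adm n N (e * δ) fun d D0 D T t R => X d D0 D T t R ^ δ := by
  obtain ⟨K, hK, h⟩ := hX
  refine ⟨K ^ δ, pow_nonneg hK δ, fun d D0 D T t R c => ?_⟩
  obtain ⟨h1, h2⟩ := h d D0 D T t R c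
  refine ⟨pow_nonneg h1 δ, (pow_le_pow_left₀ h1 h2 δ).trans_eq ?_⟩
  rw [← pow_mul, mul_comm t δ, pow_mul, mul_pow, ← pow_mul]

theorem adm_powt (c : ℝ) (hc : 0 ≤ c) : Adm n N 0 fun _ _ _ _ t _ => c ^ t :=
  ⟨c, hc, fun _ _ _ _ t _ _ => ⟨pow_nonneg hc t, by simp⟩⟩

theorem adm_const (c : ℝ) (hc : 1 ≤ c) : Adm n N 0 fun _ _ _ _ _ _ => c :=
  ⟨c, by linarith, fun _ _ _ _ t _ h => ⟨by linarith, by
    simpa using ppow hc le_rfl h.ht⟩⟩

theorem adm_powD0 (c : ℝ) (hc : 1 ≤ c) : Adm n N 0 fun _ D0 _ _ _ _ => c ^ D0 :=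
  ⟨c, by linarith, fun _ D0 _ _ t _ h => ⟨by positivity, by
    simpa using ppow hc le_rfl (h.hD0.trans h.hDt)⟩⟩

theorem adm_powdD (c : ℝ) (hc : 1 ≤ c) (k : ℕ) : Adm n N 0 fun d _ D _ _ _ => c ^ (d * D * k) :=
  ⟨c ^ ((n + 1) * k), by positivity, fun d _ D _ t _ h => ⟨by positivity, by
    rw [pow_zero, mul_one, ← pow_mul]
    refine ppow hc le_rfl ?_
    calc d * D * k ≤ (n + 1) * t * k := Nat.mul_le_mul (Nat.mul_le_mul h.hd h.hDt) le_rfl
      _ = (n + 1) * k * t := by ring⟩⟩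

theorem Ctx.le {d D0 D T t : ℕ} {R : ℝ} (h : Ctx n N d D0 D T t R) :
    (d * D + D0 : ℝ) ≤ (n + 2) * (2 * N) * R ^ n := by
  have h1 : (d : ℝ) ≤ n + 1 := by exact_mod_cast h.hd
  have h2 : (D0 : ℝ) ≤ D := by exact_mod_cast h.hD0
  have h3 : (0 : ℝ) ≤ D := by positivity
  have h4 := h.hD
  have h5 : (0 : ℝ) ≤ n := by positivity
  calc (d * D + D0 : ℝ) ≤ (n + 1) * D + D := by gcongr
    _ = (n + 2) * D := by ring
    _ ≤ (n + 2) * (2 * N * R ^ n) := by gcongr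
    _ = _ := by ring

theorem Ctx.one_le {d D0 D T t : ℕ} {R : ℝ} (h : Ctx n N d D0 D T t R) :
    (1 : ℝ) ≤ d * D + D0 := by
  have h1 : 1 ≤ d * D + D0 := h.hD01.trans (Nat.le_add_left _ _)
  exact_mod_cast h1

theorem adm_base (c : ℝ) (hc : 0 ≤ c) :
    Adm n N n fun d D0 D _ t _ => (c * (d * D + D0)) ^ t := by
  refine ⟨c * ((n + 2) * (2 * N)), by positivity, fun d D0 D T t R h => ⟨by positivity, ?_⟩⟩
  refine pow_le_pow_left₀ (by positivity) ?_ t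
  calc c * (d * D + D0) ≤ c * ((n + 2) * (2 * N) * R ^ n) := by gcongr; exact h.le
    _ = _ := by ring

theorem adm_baseT (b c : ℝ) (hb : 1 ≤ b) (hc : 1 ≤ c) :
    Adm n N (n * n) fun d D0 D T _ _ => (b * (c * (d * D + D0))) ^ (n * T) := by
  refine ⟨(b * (c * ((n + 2) * (2 * N)))) ^ n, by positivity, fun d D0 D T t R h =>
    ⟨by positivity, ?_⟩⟩
  have h1 : 1 ≤ b * (c * (d * D + D0)) :=
    one_le_mul_of_one_le_of_one_le hb (one_le_mul_of_one_le_of_one_le hc h.one_le)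
  have h2 : b * (c * (d * D + D0)) ≤ b * (c * ((n + 2) * (2 * N))) * R ^ n := by
    calc b * (c * (d * D + D0)) ≤ b * (c * ((n + 2) * (2 * N) * R ^ n)) := by
          gcongr; exact h.le
      _ = _ := by ring
  refine (ppow h1 h2 (Nat.mul_le_mul_left n h.hTt)).trans_eq ?_
  rw [pow_mul, mul_pow _ (R ^ n) n, ← pow_mul]

theorem adm_fact : Adm n N (n + 1) fun _ _ _ _ t _ => (t.factorial : ℝ) := by
  refine ⟨1, zero_le_one, fun d D0 D T t R h => ⟨by positivity, ?_⟩⟩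
  rw [one_mul, h.hRt]
  show ((t.factorial : ℕ) : ℝ) ≤ _
  exact_mod_cast Nat.factorial_le_pow t

theorem adm_DD : Adm n N 0 fun d D0 D _ _ _ => ((D0 * D ^ d : ℕ) : ℝ) := by
  refine ⟨2 ^ (n + 1), by positivity, fun d D0 D T t R h => ⟨by positivity, ?_⟩⟩
  show ((D0 * D ^ d : ℕ) : ℝ) ≤ _
  rw [h.hDD, pow_zero, mul_one, ← pow_mul, mul_comm (n + 1) t, pow_mul]
  have : D ^ (n + 1) ≤ (2 ^ t) ^ (n + 1) :=
    Nat.pow_le_pow_left (h.hDt.trans Nat.lt_two_pow_self.le) _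
  exact_mod_cast this

theorem Ctx.le' {d D0 D T t k : ℕ} {R c c' : ℝ} (h : Ctx n N d D0 D T t R) (hc : 0 ≤ c)
    (hc' : 0 ≤ c') (hk : k ≤ D) : k * (c * (c' * (n * N + R))) ≤ t * (c * (c' * (n * N + 2 * N))) := by
  have h1 : (k : ℝ) ≤ D := by exact_mod_cast hk
  have h2 : (D : ℝ) ≤ t := by exact_mod_cast h.hDt
  have h3 := h.hR1
  have h4 := h.hDR
  have h5 : (k : ℝ) * (n * N + R) ≤ t * (n * N + 2 * N) := by
    calc (k : ℝ) * (n * N + R) ≤ D * (n * N + R) := by gcongr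
      _ = D * (n * N) + D * R := by ring
      _ ≤ t * (n * N) + 2 * N * t := by gcongr
      _ = _ := by ring
  calc (k : ℝ) * (c * (c' * (n * N + R))) = c * (c' * (k * (n * N + R))) := by ring
    _ ≤ c * (c' * (t * (n * N + 2 * N))) := by gcongr
    _ = _ := by ring

theorem adm_x (c c' : ℝ) (hc : 0 ≤ c) (hc' : 0 ≤ c') :
    Adm n N 0 fun _ D0 _ _ _ R => (c * (c' * (n * N + R))) ^ D0 := by
  refine ⟨Real.exp (c * (c' * (n * N + 2 * N))), by positivity, fun d D0 D T t R h => ?_⟩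
  have h3 := h.hR1
  have h0 : 0 ≤ c * (c' * (n * N + R)) := by positivity
  refine ⟨by positivity, ?_⟩
  calc (c * (c' * (n * N + R))) ^ D0 ≤ Real.exp (c * (c' * (n * N + R))) ^ D0 := by
        refine pow_le_pow_left₀ h0 ?_ _
        have := Real.add_one_le_exp (c * (c' * (n * N + R)))
        linarith
    _ = Real.exp (D0 * (c * (c' * (n * N + R)))) := (Real.exp_nat_mul _ _).symm
    _ ≤ Real.exp (t * (c * (c' * (n * N + 2 * N)))) := by
        refine Real.exp_le_exp.2 (h.le' hc hc' h.hD0)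
    _ = _ := by rw [Real.exp_nat_mul, pow_zero, mul_one]

theorem adm_exp (c c' : ℝ) (hc : 0 ≤ c) (hc' : 0 ≤ c') :
    Adm n N 0 fun d _ D _ _ R => Real.exp (d * D * (c * (c' * (n * N + R)))) := by
  refine ⟨Real.exp ((n + 1) * (c * (c' * (n * N + 2 * N)))), by positivity,
    fun d D0 D T t R h => ⟨by positivity, ?_⟩⟩
  have h1 : (d : ℝ) ≤ n + 1 := by exact_mod_cast h.hd
  have h3 := h.hR1
  rw [pow_zero, mul_one, ← Real.exp_nat_mul]
  refine Real.exp_le_exp.2 ?_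
  calc (d : ℝ) * D * (c * (c' * (n * N + R))) ≤ (n + 1) * D * (c * (c' * (n * N + R))) := by gcongr
    _ = (n + 1) * (D * (c * (c' * (n * N + R)))) := by ring
    _ ≤ (n + 1) * (t * (c * (c' * (n * N + 2 * N)))) := by
        have := h.le' hc hc' (le_refl D)
        gcongr
    _ = _ := by ring

theorem adm_abd {b : ℕ} {B : ℝ} (hn : 0 < n) (hN : 0 < N) (hb : 1 ≤ b) (hB : 1 ≤ B) :
    Adm n N (n * n + 0 + 0) fun d D0 D T _ _ => Abd B b n d D0 D T N := by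
  have hn' : (1 : ℝ) ≤ n := by exact_mod_cast hn
  have hN' : (1 : ℝ) ≤ N := by exact_mod_cast hN
  have hb' : (1 : ℝ) ≤ b := by exact_mod_cast hb
  refine ((adm_baseT (b : ℝ) (n * B) hb' (one_le_mul_of_one_le_of_one_le hn' hB)).mul
    (adm_powD0 ((b : ℝ) * (n * N * B)) ?_)).mul (adm_powdD ((b : ℝ) * B) ?_ (n * N))
  · exact one_le_mul_of_one_le_of_one_le hb' (one_le_mul_of_one_le_of_one_le
      (one_le_mul_of_one_le_of_one_le hn' hN') hB)
  · exact one_le_mul_of_one_le_of_one_le hb' hB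

theorem adm_sbd {b : ℕ} {C1 B : ℝ} (hn : 0 < n) (hN : 0 < N) (hb : 1 ≤ b) (hC1 : 1 ≤ C1)
    (hB : 1 ≤ B) :
    Adm n N (n * n) fun d D0 D T _ _ => Sbd C1 B b n d D0 D T N := by
  have := adm_DD.mul (((adm_const C1 hC1).mul adm_DD).mul (adm_abd (n := n) (N := N) hn hN hb hB))
  simp only [zero_add, add_zero] at this
  exact this

theorem adm_hbd {b : ℕ} {C1 B : ℝ} (hn : 0 < n) (hN : 0 < N) (hb : 1 ≤ b) (hC1 : 1 ≤ C1)
    (hB : 1 ≤ B) :
    Adm n N (n + n * n) fun d D0 D T t _ => Hbd C1 B b n d D0 D T N t := by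
  have hn' : (1 : ℝ) ≤ n := by exact_mod_cast hn
  have hN' : (1 : ℝ) ≤ N := by exact_mod_cast hN
  have := (((adm_base (n := n) (N := N) (n * B) (by positivity)).mul
    (adm_sbd hn hN hb hC1 hB)).mul (adm_powD0 ((n : ℝ) * N * B) (one_le_mul_of_one_le_of_one_le
      (one_le_mul_of_one_le_of_one_le hn' hN') hB))).mul (adm_powdD B hB (n * N))
  simp only [zero_add, add_zero] at this
  exact this

theorem adm_den {b : ℕ} (hb : 1 ≤ b) :
    Adm n N 0 fun d D0 D _ t _ => ((b ^ (t + (D0 + d * D * (n * N))) : ℕ) : ℝ) := by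
  have hb' : (1 : ℝ) ≤ b := by exact_mod_cast hb
  have := (adm_powt (n := n) (N := N) (b : ℝ) (by positivity)).mul ((adm_powD0 (b : ℝ) hb').mul
    (adm_powdD (b : ℝ) hb' (n * N)))
  simpa only [zero_add, add_zero, ← pow_add, Nat.cast_pow] using this

/-- `Ubd` without the gain -/
noncomputable def Ubd' (C C1 B V R : ℝ) (b n d D0 D T N t : ℕ) : ℝ :=
  C ^ t * (t.factorial * (((n * B * V * (d * D + D0)) ^ t * Sbd C1 B b n d D0 D T N *
    (n * B * (V * (n * N + R))) ^ D0 * Real.exp (d * D * (n * B * (V * (n * N + R)))))))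

theorem adm_ubd {b : ℕ} {C C1 B V : ℝ} (hn : 0 < n) (hN : 0 < N) (hb : 1 ≤ b) (hC : 1 ≤ C)
    (hC1 : 1 ≤ C1) (hB : 1 ≤ B) (hV : 1 ≤ V) :
    Adm n N ((n + 1) + (n + n * n)) fun d D0 D T t R => Ubd' C C1 B V R b n d D0 D T N t := by
  have := (adm_powt (n := n) (N := N) C (by positivity)).mul (adm_fact.mul ((((adm_base
    (n * B * V) (by positivity)).mul (adm_sbd hn hN hb hC1 hB)).mul
    (adm_x (n * B) V (by positivity) (by positivity))).mul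
    (adm_exp (n * B) V (by positivity) (by positivity))))
  simp only [zero_add, add_zero] at this
  exact this

/-- the gain of Schwarz' lemma -/
theorem gain (n N' t : ℕ) (R : ℝ) (hn : 0 < n) (hR : 2 * ((2 * (2 * n * N') + 1 : ℕ) : ℝ) ≤ R)
    (ht : n ≤ t) :
    (0 : ℝ) ≤ ((2 * (2 * n * N' : ℕ) + 1) / (R - (2 * n * N' : ℕ))) ^ ((2 * n * N') * (t / n)) ∧
    ((2 * (2 * n * N' : ℕ) + 1 : ℝ) / (R - (2 * n * N' : ℕ))) ^ ((2 * n * N') * (t / n)) ≤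
      ((2 * ((2 * (2 * n * N') + 1 : ℕ) : ℝ)) ^ N' / R ^ N') ^ t := by
  set N := 2 * n * N' with hN
  push_cast at hR ⊢
  have hN0 : (0 : ℝ) ≤ N := by positivity
  have h1 : 0 < R := by linarith
  have h2 : 0 < R - N := by linarith
  have h3 : (2 * N + 1 : ℝ) / (R - N) ≤ 2 * (2 * N + 1) / R := by
    rw [div_le_div_iff₀ h2 h1]
    nlinarith
  have h4 : 2 * (2 * N + 1 : ℝ) / R ≤ 1 := (div_le_one h1).2 hR
  have h5 : t ≤ 2 * n * (t / n) := by
    have h6 := Nat.lt_div_mul_add (a := t) hn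
    have h7 : 1 ≤ t / n := (Nat.one_le_div_iff hn).2 ht
    nlinarith
  refine ⟨by positivity, ?_⟩
  calc ((2 * N + 1 : ℝ) / (R - N)) ^ (N * (t / n)) ≤ (2 * (2 * N + 1) / R) ^ (N * (t / n)) :=
        pow_le_pow_left₀ (by positivity) h3 _
    _ ≤ (2 * (2 * N + 1) / R) ^ (N' * t) := by
        refine pow_le_pow_of_le_one (by positivity) h4 ?_
        calc N' * t ≤ N' * (2 * n * (t / n)) := Nat.mul_le_mul_left _ h5
          _ = N * (t / n) := by rw [hN]; ring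
    _ = _ := by rw [pow_mul, div_pow]

end Num

open Num

/-- `N = n (n + 1) (δ (2 n + 3) + 2 n + 5)` or so, `M` large, `D = 2 N M ^ n`, `T = M ^ (n + 1)`,
`R = t ^ (1 / (n + 1))` -/
theorem num (n δ b : ℕ) (hn : 0 < n) (hδ : 0 < δ) (hb : 1 ≤ b) (C C1 B V : ℝ) (hC : 1 ≤ C)
    (hC1 : 1 ≤ C1) (hB : 1 ≤ B) (hV : 1 ≤ V) :
    ∃ N M : ℕ, 0 < N ∧ 0 < M ∧ ∀ d D0 D T : ℕ, d ≤ n + 1 → 0 < D0 → D0 ≤ D →
      D0 * D ^ d = D ^ (n + 1) → D = 2 * N * M ^ n → T = M ^ (n + 1) → ∀ t : ℕ, T ≤ t →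
      ∃ R : ℝ, (N : ℝ) + 1 ≤ R ∧
        Ubd C C1 B V R b n d D0 D T N t *
          (((b ^ (t + (D0 + d * D * (n * N))) : ℕ) : ℝ) ^ δ * Hbd C1 B b n d D0 D T N t ^ δ) < 1 := by
  obtain ⟨e, he⟩ : ∃ e, e = (n + 1) + (n + n * n) + (0 * δ + (n + n * n) * δ) := ⟨_, rfl⟩
  obtain ⟨N, hN⟩ : ∃ N, N = 2 * n * (e + 1) := ⟨_, rfl⟩
  have hN0 : 0 < N := by rw [hN]; positivity
  obtain ⟨K, hK0, hK⟩ := (adm_ubd (n := n) (N := N) hn hN0 hb hC hC1 hB hV).mul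
    (((adm_den hb).pow δ).mul ((adm_hbd hn hN0 hb hC1 hB).pow δ))
  rw [← he] at hK
  obtain ⟨M, hM⟩ := exists_nat_gt (K * (2 * ((2 * N + 1 : ℕ) : ℝ)) ^ (e + 1) + 4 * N + 2 + n)
  have hKL : 0 ≤ K * (2 * ((2 * N + 1 : ℕ) : ℝ)) ^ (e + 1) := by positivity
  have hM1 : 4 * N + 2 + n ≤ M := by
    have h1 : ((4 * N + 2 + n : ℕ) : ℝ) ≤ M := by push_cast; linarith
    exact_mod_cast h1
  refine ⟨N, M, hN0, by omega, ?_⟩
  intro d D0 D T hd hD0 hD0D hDD hD hT t ht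
  have hMt : M ≤ t := by
    calc M = M ^ 1 := (pow_one M).symm
      _ ≤ M ^ (n + 1) := Nat.pow_le_pow_right (by omega) (by omega)
      _ ≤ t := by rw [← hT]; exact ht
  have ht0 : 1 ≤ t := by omega
  set R : ℝ := (t : ℝ) ^ (1 / ((n : ℝ) + 1)) with hR
  have hR0 : 0 ≤ R := by positivity
  have hRt : R ^ (n + 1) = t := by
    rw [hR, ← Real.rpow_natCast, ← Real.rpow_mul (by positivity)]
    push_cast
    rw [one_div, inv_mul_cancel₀ (by positivity), Real.rpow_one]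
  have hMR : (M : ℝ) ≤ R := by
    refine le_of_pow_le_pow_left₀ (Nat.succ_ne_zero n) hR0 ?_
    rw [Nat.succ_eq_add_one, hRt, ← Nat.cast_pow, ← hT]
    exact_mod_cast ht
  have hR1 : 4 * N + 2 ≤ R := by
    refine le_trans ?_ hMR
    have h1 : 4 * N + 2 ≤ M := by omega
    exact_mod_cast h1
  have hN0' : (0 : ℝ) ≤ N := by positivity
  have hctx : Ctx n N d D0 D T t R := by
    refine ⟨by linarith, ht0, hRt, ?_, ?_, ?_, hD0D, hD0, hd, ht, hDD⟩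
    · calc D = 2 * N * M ^ n := hD
        _ ≤ M * M ^ n := Nat.mul_le_mul_right _ (by omega)
        _ = T := by rw [hT]; ring
        _ ≤ t := ht
    · rw [hD]
      push_cast
      gcongr
    · rw [hD]
      push_cast
      calc 2 * (N : ℝ) * M ^ n * R ≤ 2 * N * R ^ n * R := by gcongr
        _ = 2 * N * R ^ (n + 1) := by ring
        _ = _ := by rw [hRt]
  refine ⟨R, by linarith, ?_⟩
  obtain ⟨h1, h2⟩ := hK d D0 D T t R hctx
  obtain ⟨h3, h4⟩ := gain n (e + 1) t R hn (by rw [← hN]; push_cast; linarith) (by omega)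
  rw [← hN] at h3 h4
  have hRpos : 0 < R := by linarith
  calc Ubd C C1 B V R b n d D0 D T N t *
          (((b ^ (t + (D0 + d * D * (n * N))) : ℕ) : ℝ) ^ δ * Hbd C1 B b n d D0 D T N t ^ δ)
      = (Ubd' C C1 B V R b n d D0 D T N t *
          (((b ^ (t + (D0 + d * D * (n * N))) : ℕ) : ℝ) ^ δ * Hbd C1 B b n d D0 D T N t ^ δ)) *
        ((2 * N + 1) / (R - N)) ^ (N * (t / n)) := by
        rw [Ubd, Ubd']; ring
    _ ≤ (K * R ^ e) ^ t * ((2 * ((2 * N + 1 : ℕ) : ℝ)) ^ (e + 1) / R ^ (e + 1)) ^ t :=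
        mul_le_mul h2 h4 h3 (by positivity)
    _ = (K * (2 * ((2 * N + 1 : ℕ) : ℝ)) ^ (e + 1) / R) ^ t := by
        rw [← mul_pow]
        congr 1
        field_simp
        ring
    _ < 1 := by
        refine pow_lt_one₀ (by positivity) ?_ (by omega)
        rw [div_lt_one hRpos]
        refine lt_of_lt_of_le ?_ hMR
        have : (0 : ℝ) ≤ n := by positivity
        linarith

end Pool.Agent.BKR
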