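import Pool.Agent.BKR.Defs

/-! # The algebra of the operators `T` -/

namespace Pool.Agent.BKR

variable {R : Type*} [CommRing R] {n d D0 D : ℕ}

private theorem op_dot_sum (y : Fin n → R) {ι : Type*} (s : Finset ι)
    (x : ι → R) (u : ι → Fin n → R) :
    ∑ j, y j * (∑ i ∈ s, x i * u i j) = ∑ i ∈ s, x i * ∑ j, y j * u i j := by
  simp only [Finset.mul_sum]
  rw [Finset.sum_comm]
  refine Finset.sum_congr rfl fun i _ => Finset.sum_congr rfl fun j _ => ?_
  ring

private theorem op_lam_sum (l : Fin d → Fin n → R) (m : Fin d → Fin D) {ι : Type*} (s : Finset ι)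
    (x : ι → R) (u : ι → Fin n → R) :
    lam l m (fun j => ∑ i ∈ s, x i * u i j) = ∑ i ∈ s, x i * lam l m (u i) := by
  unfold lam
  simp only [op_dot_sum]

theorem T_sum_dir (g : Fin n → R) (l : Fin d → Fin n → R) {ι : Type*} (s : Finset ι) (x : ι → R)
    (u : ι → Fin n → R) (c : Idx D0 D d → R) :
    T g l (fun j => ∑ i ∈ s, x i * u i j) c = fun i' => ∑ i ∈ s, x i * T g l (u i) c i' := by
  funext i'
  unfold T
  rw [op_lam_sum, op_dot_sum]
  by_cases h : (i'.1 : ℕ) + 1 < D0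
  · simp only [dif_pos h]
    rw [Finset.sum_mul, Finset.mul_sum, Finset.sum_mul, ← Finset.sum_add_distrib]
    refine Finset.sum_congr rfl fun i _ => ?_
    ring
  · simp only [dif_neg h, add_zero]
    rw [Finset.sum_mul]
    refine Finset.sum_congr rfl fun i _ => ?_
    ring

theorem T_sum_coef (g : Fin n → R) (l : Fin d → Fin n → R) (w : Fin n → R) {ι : Type*}
    (s : Finset ι) (x : ι → R) (c : ι → Idx D0 D d → R) :
    T g l w (fun i' => ∑ i ∈ s, x i * c i i') = fun i' => ∑ i ∈ s, x i * T g l w (c i) i' := by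
  funext i'
  unfold T
  by_cases h : (i'.1 : ℕ) + 1 < D0
  · simp only [dif_pos h]
    rw [Finset.mul_sum, Finset.mul_sum, ← Finset.sum_add_distrib]
    refine Finset.sum_congr rfl fun i _ => ?_
    ring
  · simp only [dif_neg h, add_zero]
    rw [Finset.mul_sum]
    refine Finset.sum_congr rfl fun i _ => ?_
    ring

theorem TW_sum_coef (g : Fin n → R) (l : Fin d → Fin n → R) (ws : List (Fin n → R)) {ι : Type*}
    (s : Finset ι) (x : ι → R) (c : ι → Idx D0 D d → R) :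
    TW g l ws (fun i' => ∑ i ∈ s, x i * c i i') = fun i' => ∑ i ∈ s, x i * TW g l ws (c i) i' := by
  induction ws with
  | nil => rfl
  | cons w ws ih =>
    change T g l w (TW g l ws fun i' => ∑ i ∈ s, x i * c i i') = _
    rw [ih]
    exact T_sum_coef g l w s x fun i => TW g l ws (c i)

theorem T_comm (g : Fin n → R) (l : Fin d → Fin n → R) (w w' : Fin n → R) (c : Idx D0 D d → R) :
    T g l w (T g l w' c) = T g l w' (T g l w c) := by
  funext i
  unfold T
  by_cases h : (i.1 : ℕ) + 1 < D0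
  · simp only [dif_pos h]
    by_cases h2 : (i.1 : ℕ) + 1 + 1 < D0
    · simp only [dif_pos h2]
      ring
    · simp only [dif_neg h2]
      ring
  · simp only [dif_neg h]
    ring

theorem TW_append (g : Fin n → R) (l : Fin d → Fin n → R) (ws ws' : List (Fin n → R))
    (c : Idx D0 D d → R) : TW g l (ws ++ ws') c = TW g l ws (TW g l ws' c) := by
  unfold TW
  rw [List.foldr_append]

theorem TW_perm (g : Fin n → R) (l : Fin d → Fin n → R) {ws ws' : List (Fin n → R)}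
    (h : ws.Perm ws') (c : Idx D0 D d → R) : TW g l ws c = TW g l ws' c := by
  induction h with
  | nil => rfl
  | cons w _ ih => exact congrArg (T g l w) ih
  | swap w w' ws => exact T_comm g l w' w (TW g l ws c)
  | trans _ _ ih1 ih2 => exact ih1.trans ih2

theorem T_map {S : Type*} [CommRing S] (f : R →+* S) (g : Fin n → R) (l : Fin d → Fin n → R)
    (w : Fin n → R) (c : Idx D0 D d → R) (i : Idx D0 D d) :
    f (T g l w c i) = T (fun j => f (g j)) (fun k j => f (l k j)) (fun j => f (w j))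
      (fun i' => f (c i')) i := by
  unfold T lam
  by_cases h : (i.1 : ℕ) + 1 < D0
  · simp only [dif_pos h, map_add, map_mul, map_sum, map_natCast]
  · simp only [dif_neg h, map_add, map_mul, map_sum, map_natCast, map_zero]

/-- base change for words in the unit vectors -/
theorem TW_map {S : Type*} [CommRing S] (f : R →+* S) (g : Fin n → R) (l : Fin d → Fin n → R)
    (js : List (Fin n)) (c : Idx D0 D d → R) (i : Idx D0 D d) :
    f (TW g l (js.map (uv R)) c i) = TW (fun j => f (g j)) (fun k j => f (l k j))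
      (js.map (uv S)) (fun i' => f (c i')) i := by
  induction js generalizing i with
  | nil => rfl
  | cons j js ih =>
    change f (T g l (uv R j) (TW g l (js.map (uv R)) c) i) =
      T (fun j => f (g j)) (fun k j => f (l k j)) (uv S j)
        (TW (fun j => f (g j)) (fun k j => f (l k j)) (js.map (uv S)) (fun i' => f (c i'))) i
    rw [T_map]
    have h1 : (fun j' => f (uv R j j')) = uv S j := by
      funext j'
      unfold uv
      split_ifs <;> simp
    have h2 : (fun i' => f (TW g l (js.map (uv R)) c i')) =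
        TW (fun j => f (g j)) (fun k j => f (l k j)) (js.map (uv S)) (fun i' => f (c i')) := by
      funext i'
      exact ih i'
    rw [h1, h2]

private theorem op_shift_fin (D0 : ℕ) (f : Fin D0 → ℝ) (hf : ∀ a, 0 ≤ f a) :
    ∑ a : Fin D0, (if h : (a : ℕ) + 1 < D0 then f ⟨(a : ℕ) + 1, h⟩ else 0) ≤ ∑ a, f a := by
  cases D0 with
  | zero => simp
  | succ k =>
    rw [Fin.sum_univ_castSucc, Fin.sum_univ_succ (f := f)]
    have h1 : (if h : ((Fin.last k : Fin (k + 1)) : ℕ) + 1 < k + 1 then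
        f ⟨((Fin.last k : Fin (k + 1)) : ℕ) + 1, h⟩ else 0) = 0 := by
      rw [dif_neg]
      simp
    have h2 : ∀ a : Fin k, (if h : ((Fin.castSucc a : Fin (k + 1)) : ℕ) + 1 < k + 1 then
        f ⟨((Fin.castSucc a : Fin (k + 1)) : ℕ) + 1, h⟩ else 0) = f a.succ := by
      intro a
      rw [dif_pos (by simp)]
      rfl
    rw [h1, Finset.sum_congr rfl fun a _ => h2 a]
    have := hf 0
    linarith

private theorem op_shift (f : Idx D0 D d → ℝ) (hf : ∀ i, 0 ≤ f i) :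
    ∑ i : Idx D0 D d, (if h : (i.1 : ℕ) + 1 < D0 then f (⟨(i.1 : ℕ) + 1, h⟩, i.2) else 0) ≤
      ∑ i, f i := by
  rw [Fintype.sum_prod_type, Fintype.sum_prod_type]
  rw [Finset.sum_comm, Finset.sum_comm (f := fun a m => f (a, m))]
  refine Finset.sum_le_sum fun m _ => ?_
  exact op_shift_fin D0 (fun a => f (a, m)) fun a => hf _

private theorem op_dot_norm (y w : Fin n → ℂ) (B W : ℝ) (hB : 0 ≤ B)
    (hy : ∀ j, ‖y j‖ ≤ B) (hw : ∀ j, ‖w j‖ ≤ W) : ‖∑ j, y j * w j‖ ≤ n * B * W := by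
  refine (norm_sum_le _ _).trans ?_
  have h : ∀ j ∈ (Finset.univ : Finset (Fin n)), ‖y j * w j‖ ≤ B * W := by
    intro j _
    rw [norm_mul]
    exact mul_le_mul (hy j) (hw j) (norm_nonneg _) hB
  refine (Finset.sum_le_card_nsmul _ _ _ h).trans (le_of_eq ?_)
  rw [Finset.card_univ, Fintype.card_fin, nsmul_eq_mul, mul_assoc]

private theorem op_lam_norm (l : Fin d → Fin n → ℂ) (m : Fin d → Fin D) (w : Fin n → ℂ)
    (B W : ℝ) (hB : 0 ≤ B) (hl : ∀ k j, ‖l k j‖ ≤ B) (hw : ∀ j, ‖w j‖ ≤ W) :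
    ‖lam l m w‖ ≤ n * B * W * (d * D) := by
  unfold lam
  refine (norm_sum_le _ _).trans ?_
  have h : ∀ k ∈ (Finset.univ : Finset (Fin d)),
      ‖(((m k : Fin D) : ℕ) : ℂ) * ∑ j, l k j * w j‖ ≤ D * (n * B * W) := by
    intro k _
    rw [norm_mul, Complex.norm_natCast]
    have h1 : (((m k : Fin D) : ℕ) : ℝ) ≤ D := by exact_mod_cast (m k).2.le
    exact mul_le_mul h1 (op_dot_norm (l k) w B W hB (hl k) hw) (norm_nonneg _) (Nat.cast_nonneg _)
  refine (Finset.sum_le_card_nsmul _ _ _ h).trans (le_of_eq ?_)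
  rw [Finset.card_univ, Fintype.card_fin, nsmul_eq_mul]
  ring

theorem T_l1 (g : Fin n → ℂ) (l : Fin d → Fin n → ℂ) (w : Fin n → ℂ) (c : Idx D0 D d → ℂ)
    (B W : ℝ) (hB : 0 ≤ B) (hW : 0 ≤ W) (hg : ∀ j, ‖g j‖ ≤ B) (hl : ∀ k j, ‖l k j‖ ≤ B)
    (hw : ∀ j, ‖w j‖ ≤ W) :
    ∑ i, ‖T g l w c i‖ ≤ (n * B * W * (d * D + D0)) * ∑ i, ‖c i‖ := by
  have hP : 0 ≤ (n : ℝ) * B * W := by positivity
  have h1 : ∀ i : Idx D0 D d, ‖T g l w c i‖ ≤ n * B * W * (d * D) * ‖c i‖ +
      n * B * W * D0 * (if h : (i.1 : ℕ) + 1 < D0 then ‖c (⟨(i.1 : ℕ) + 1, h⟩, i.2)‖ else 0) := by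
    intro i
    unfold T
    refine (norm_add_le _ _).trans (add_le_add ?_ ?_)
    · rw [norm_mul]
      exact mul_le_mul_of_nonneg_right (op_lam_norm l i.2 w B W hB hl hw) (norm_nonneg _)
    · by_cases h : (i.1 : ℕ) + 1 < D0
      · simp only [dif_pos h]
        rw [norm_mul, norm_mul, Complex.norm_natCast]
        have h2 : (((i.1 : ℕ) + 1 : ℕ) : ℝ) ≤ D0 := by exact_mod_cast h.le
        have h3 := op_dot_norm g w B W hB hg hw
        calc (((i.1 : ℕ) + 1 : ℕ) : ℝ) * ‖∑ j, g j * w j‖ * ‖c (⟨(i.1 : ℕ) + 1, h⟩, i.2)‖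
            ≤ D0 * (n * B * W) * ‖c (⟨(i.1 : ℕ) + 1, h⟩, i.2)‖ := by gcongr
          _ = n * B * W * D0 * ‖c (⟨(i.1 : ℕ) + 1, h⟩, i.2)‖ := by ring
      · simp only [dif_neg h]
        simp
  refine (Finset.sum_le_sum fun i _ => h1 i).trans ?_
  rw [Finset.sum_add_distrib, ← Finset.mul_sum, ← Finset.mul_sum]
  have h4 := op_shift (D0 := D0) (D := D) (d := d) (fun i => ‖c i‖) fun i => norm_nonneg _
  have h5 : (n : ℝ) * B * W * D0 * (∑ i : Idx D0 D d, if h : (i.1 : ℕ) + 1 < D0 then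
      ‖c (⟨(i.1 : ℕ) + 1, h⟩, i.2)‖ else 0) ≤ n * B * W * D0 * ∑ i, ‖c i‖ :=
    mul_le_mul_of_nonneg_left h4 (by positivity)
  calc (n : ℝ) * B * W * (d * D) * ∑ i, ‖c i‖ + n * B * W * D0 *
        (∑ i : Idx D0 D d, if h : (i.1 : ℕ) + 1 < D0 then ‖c (⟨(i.1 : ℕ) + 1, h⟩, i.2)‖ else 0)
      ≤ (n : ℝ) * B * W * (d * D) * ∑ i, ‖c i‖ + n * B * W * D0 * ∑ i, ‖c i‖ := by gcongr
    _ = (n * B * W * (d * D + D0)) * ∑ i, ‖c i‖ := by ring

theorem TW_l1 (g : Fin n → ℂ) (l : Fin d → Fin n → ℂ) (ws : List (Fin n → ℂ))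
    (c : Idx D0 D d → ℂ) (B W : ℝ) (hB : 0 ≤ B) (hW : 0 ≤ W) (hg : ∀ j, ‖g j‖ ≤ B)
    (hl : ∀ k j, ‖l k j‖ ≤ B) (hw : ∀ w ∈ ws, ∀ j, ‖w j‖ ≤ W) :
    ∑ i, ‖TW g l ws c i‖ ≤ (n * B * W * (d * D + D0)) ^ ws.length * ∑ i, ‖c i‖ := by
  induction ws with
  | nil => simp [TW]
  | cons w ws ih =>
    have h1 := ih fun w' hw' => hw w' (List.mem_cons_of_mem _ hw')
    have h2 := T_l1 g l w (TW g l ws c) B W hB hW hg hl (hw w List.mem_cons_self)
    change ∑ i, ‖T g l w (TW g l ws c) i‖ ≤ _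
    refine h2.trans ?_
    rw [List.length_cons, pow_succ', mul_assoc (n * B * W * (d * D + D0) : ℝ)]
    have h3 : (0 : ℝ) ≤ n * B * W * (d * D + D0) := by positivity
    exact mul_le_mul_of_nonneg_left h1 h3

end Pool.Agent.BKR
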