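import Pool.Agent.BKR.Line
import Pool.Agent.BKR.Lin
import Pool.Agent.BKR.Liou
import Pool.Agent.BKR.Num

/-! # The theorem of Schneider and Lang on a grid, for exponential functions -/

namespace Pool.Agent.BKR

open NumberField

theorem SLG_dirs (n : ℕ) (hn : 0 < n) (v : Fin n → Fin n → ℂ) (hv : LinearIndependent ℂ v) :
    ∃ (κ : Fin n → Fin n → ℂ) (C V : ℝ), 1 ≤ C ∧ 1 ≤ V ∧ (∀ i j, ‖v i j‖ ≤ V) ∧
      (∀ j, uv ℂ j = fun j' => ∑ i, κ j i * v i j') ∧ ∀ j, ∑ i, ‖κ j i‖ ≤ C := by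
  haveI : Nonempty (Fin n) := ⟨⟨0, hn⟩⟩
  have hcard : Fintype.card (Fin n) = Module.finrank ℂ (Fin n → ℂ) := by simp
  let bs := basisOfLinearIndependentOfCardEqFinrank hv hcard
  have hbs : ∀ i, bs i = v i := fun i => by
    simp [bs]
  refine ⟨fun j i => bs.repr (uv ℂ j) i, 1 + ∑ j : Fin n, ∑ i, ‖bs.repr (uv ℂ j) i‖,
    1 + ∑ i : Fin n, ∑ j, ‖v i j‖, ?_, ?_, ?_, ?_, ?_⟩
  · have : 0 ≤ ∑ j : Fin n, ∑ i, ‖bs.repr (uv ℂ j) i‖ := by positivity
    linarith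
  · have : 0 ≤ ∑ i : Fin n, ∑ j, ‖v i j‖ := by positivity
    linarith
  · intro i j
    have h1 : ‖v i j‖ ≤ ∑ j, ‖v i j‖ :=
      Finset.single_le_sum (f := fun j => ‖v i j‖) (fun _ _ => norm_nonneg _) (Finset.mem_univ j)
    have h2 : ∑ j, ‖v i j‖ ≤ ∑ i : Fin n, ∑ j, ‖v i j‖ :=
      Finset.single_le_sum (f := fun i => ∑ j, ‖v i j‖) (fun _ _ => by positivity)
        (Finset.mem_univ i)
    linarith
  · intro j
    have h := bs.sum_repr (uv ℂ j)
    funext j'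
    have h' := congrFun h j'
    rw [← h']
    simp [hbs, Finset.sum_apply]
  · intro j
    have h2 : ∑ i, ‖bs.repr (uv ℂ j) i‖ ≤ ∑ j : Fin n, ∑ i, ‖bs.repr (uv ℂ j) i‖ :=
      Finset.single_le_sum (f := fun j => ∑ i, ‖bs.repr (uv ℂ j) i‖) (fun _ _ => by positivity)
        (Finset.mem_univ j)
    linarith

/-- all data in a number field, dimensions `D0`, `D` chosen by a function -/
theorem slg_core (n d : ℕ) (hn : 0 < n) (g : Fin n → ℂ) (hd : d = n + 1 ∨ (d = n ∧ g ≠ 0))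
    (l : Fin d → Fin n → ℂ) (hl : LinearIndependent ℚ l) (v κ : Fin n → Fin n → ℂ) (C V : ℝ)
    (hC : 1 ≤ C) (hV : 1 ≤ V) (hvV : ∀ i j, ‖v i j‖ ≤ V)
    (hκ : ∀ j, uv ℂ j = fun j' => ∑ i, κ j i * v i j') (hκC : ∀ j, ∑ i, ‖κ j i‖ ≤ C)
    (K : Type) [Field K] [NumberField K] (ι : K →+* ℂ) (gK : Fin n → K) (lK : Fin d → Fin n → K)
    (ρ : Fin n → K) (α : Fin d → Fin n → K) (hgK : ∀ j, ι (gK j) = g j)
    (hlK : ∀ k j, ι (lK k j) = l k j) (hρ : ∀ i, ι (ρ i) = ∑ j, g j * v i j)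
    (hα : ∀ k i, ι (α k i) = Complex.exp (∑ j, l k j * v i j)) (b : ℕ) (hb : 1 ≤ b) (B : ℝ)
    (hB : 1 ≤ B) (i1 : ∀ j, IsIntegral ℤ ((b : K) * gK j))
    (i2 : ∀ k j, IsIntegral ℤ ((b : K) * lK k j)) (i3 : ∀ i, IsIntegral ℤ ((b : K) * ρ i))
    (i4 : ∀ k i, IsIntegral ℤ ((b : K) * α k i)) (s1 : ∀ (σ : K →+* ℂ) j, ‖σ (gK j)‖ ≤ B)
    (s2 : ∀ (σ : K →+* ℂ) k j, ‖σ (lK k j)‖ ≤ B) (s3 : ∀ (σ : K →+* ℂ) i, ‖σ (ρ i)‖ ≤ B)
    (s4 : ∀ (σ : K →+* ℂ) k i, ‖σ (α k i)‖ ≤ B) : False := by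
  classical
  obtain ⟨C1, hC1, hS⟩ := siegel K
  have hδ : 0 < Module.finrank ℚ K := Module.finrank_pos
  obtain ⟨N, M, hN, hM, hnum⟩ := num n (Module.finrank ℚ K) b hn hδ hb C C1 B V hC hC1 hB hV
  obtain ⟨D, hD⟩ : ∃ D, D = 2 * N * M ^ n := ⟨_, rfl⟩
  obtain ⟨T', hT'⟩ : ∃ T', T' = M ^ (n + 1) := ⟨_, rfl⟩
  have hDpos : 0 < D := by rw [hD]; positivity
  have hTpos : 0 < T' := by rw [hT']; positivity
  obtain ⟨D0, hD0, hD0D, hcard, hdn, hg0⟩ : ∃ D0, 0 < D0 ∧ D0 ≤ D ∧ D0 * D ^ d = D ^ (n + 1) ∧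
      d ≤ n + 1 ∧ (D0 ≤ 1 ∨ g ≠ 0) := by
    rcases hd with hd | ⟨hd, hg⟩
    · exact ⟨1, one_pos, hDpos, by rw [hd, one_mul], hd.le, Or.inl le_rfl⟩
    · exact ⟨D, hDpos, le_rfl, by rw [hd, pow_succ, mul_comm], by omega, Or.inr hg⟩
  have hsz : 2 * (T' * N) ^ n ≤ D0 * D ^ d := by
    rw [hcard, hD, hT']
    have e1 : (2 * N * M ^ n) ^ (n + 1) = 2 * (2 ^ n * N) * (M ^ (n + 1) * N) ^ n := by
      rw [mul_pow, mul_pow, mul_pow, ← pow_mul, ← pow_mul, pow_succ 2, pow_succ N,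
        Nat.mul_comm n (n + 1)]
      ring
    rw [e1]
    have e2 : 1 ≤ 2 ^ n * N := Nat.one_le_iff_ne_zero.2 (by positivity)
    calc 2 * (M ^ (n + 1) * N) ^ n = 2 * 1 * (M ^ (n + 1) * N) ^ n := by ring
      _ ≤ 2 * (2 ^ n * N) * (M ^ (n + 1) * N) ^ n := by gcongr
  obtain ⟨c, hc0, hcb, hcz⟩ := hS n d D0 D T' N gK lK ρ α b B hb hB hn hN hTpos hD0 hDpos i1 i2 i3
    i4 s1 s2 s3 s4 hsz
  obtain ⟨cC, hcC⟩ : ∃ cC : Idx D0 D d → ℂ, cC = fun i => ι (c i : K) := ⟨_, rfl⟩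
  -- values
  have hval : ∀ (js : List (Fin n)) (a : Fin n → ℕ),
      ι (val ρ α (TW gK lK (js.map (uv K)) fun i => (c i : K)) a) =
        F g l (TW g l (js.map (uv ℂ)) cC) (gp v a) := by
    intro js a
    rw [val_eq_F ι g l v ρ α hρ hα]
    congr 1
    funext i
    rw [TW_map ι gK lK js (fun i => (c i : K)) i, hcC]
    simp only [hgK, hlK]
  have hvan : ∀ js : List (Fin n), js.length < T' → ∀ a : Fin n → ℕ, (∀ i, a i < N) →
      F g l (TW g l (js.map (uv ℂ)) cC) (gp v a) = 0 := by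
    intro js hjs a ha
    rw [← hval]
    have hcnt : ∀ j, js.count j < T' := fun j => lt_of_le_of_lt List.count_le_length hjs
    have h := hcz (fun j => ⟨js.count j, hcnt j⟩) (fun i => ⟨a i, ha i⟩)
    simp only at h
    rw [TW_perm gK lK ((perm_tw js).map (uv K)), h, map_zero]
  have hcC0 : cC ≠ 0 := by
    intro h
    apply hc0
    funext i
    have h1 : ι (c i : K) = 0 := by
      have := congrFun h i
      rw [hcC] at this
      exact this
    have h2 : (c i : K) = 0 := ι.injective (by rw [h1, map_zero])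
    exact_mod_cast h2
  have hex : ∃ t, ∃ js : List (Fin n), js.length = t ∧ ∃ a : Fin n → ℕ, (∀ i, a i < N) ∧
      F g l (TW g l (js.map (uv ℂ)) cC) (gp v a) ≠ 0 := by
    obtain ⟨js, hjs⟩ := exists_word g l hl hg0 cC hcC0 (gp v fun _ => 0)
    exact ⟨_, js, rfl, fun _ => 0, fun _ => hN, hjs⟩
  obtain ⟨t, ht⟩ : ∃ t, t = Nat.find hex := ⟨_, rfl⟩
  have ht1 := Nat.find_spec hex
  rw [← ht] at ht1
  obtain ⟨js, hjs, a, ha, hne⟩ := ht1
  have hmin : ∀ js' : List (Fin n), js'.length < t → ∀ a : Fin n → ℕ, (∀ i, a i < N) →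
      F g l (TW g l (js'.map (uv ℂ)) cC) (gp v a) = 0 := by
    intro js' hlt a ha
    by_contra hcon
    have := Nat.find_min hex (m := js'.length) (by rw [← ht]; exact hlt)
    exact this ⟨js', rfl, a, ha, hcon⟩
  have hTt : T' ≤ t := by
    by_contra hcon
    push_neg at hcon
    exact hne (hvan js (by rw [hjs]; exact hcon) a ha)
  obtain ⟨R, hR, hfin⟩ := hnum d D0 D T' hdn hD0 hD0D hcard hD hT' t hTt
  -- sum of the coefficients
  have hsum : ∀ σ : K →+* ℂ, ∑ i, ‖σ (c i : K)‖ ≤ Sbd C1 B b n d D0 D T' N := by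
    intro σ
    calc ∑ i, ‖σ (c i : K)‖ ≤ ∑ _i : Idx D0 D d, C1 * (D0 * D ^ d : ℕ) * Abd B b n d D0 D T' N :=
          Finset.sum_le_sum fun i _ => hcb i σ
      _ = Sbd C1 B b n d D0 D T' N := by
          rw [Finset.sum_const, Sbd, nsmul_eq_mul]
          congr 1
          simp [Fintype.card_prod]
  obtain ⟨ξ, hξ⟩ : ∃ ξ, ξ = val ρ α (TW gK lK (js.map (uv K)) fun i => (c i : K)) a := ⟨_, rfl⟩
  have hιξ : ι ξ = F g l (TW g l (js.map (uv ℂ)) cC) (gp v a) := by rw [hξ, hval]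
  have hξ0 : ξ ≠ 0 := by
    intro h
    apply hne
    rw [← hιξ, h, map_zero]
  have hint : IsIntegral ℤ (((b ^ (t + (D0 + d * D * (n * N))) : ℕ) : K) * ξ) := by
    have h1 : ∀ i, IsIntegral ℤ ((b : K) ^ t * TW gK lK (js.map (uv K)) (fun i => (c i : K)) i) := by
      intro i
      have := isIntegral_TW gK lK b i1 i2 (fun i => (c i : K)) (fun i => (c i).2) js i
      rwa [hjs] at this
    have h2 := isIntegral_val ρ α b i3 i4 ((b : K) ^ t) _ h1 N a ha
    rw [hξ]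
    convert h2 using 1
    push_cast
    rw [pow_add]
  have hnb : ∀ σ : K →+* ℂ, ‖σ ξ‖ ≤ Hbd C1 B b n d D0 D T' N t := by
    intro σ
    have h1 := norm_val_le σ ρ α B hB (fun i => s3 σ i) (fun k i => s4 σ k i)
      (TW gK lK (js.map (uv K)) fun i => (c i : K)) N hn hN a ha
    rw [← hξ] at h1
    have h2 : ∑ i, ‖σ (TW gK lK (js.map (uv K)) (fun i => (c i : K)) i)‖ ≤
        (n * B * 1 * (d * D + D0)) ^ js.length * ∑ i, ‖σ (c i : K)‖ := by
      have h3 := TW_l1 (fun j => σ (gK j)) (fun k j => σ (lK k j)) (js.map (uv ℂ))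
        (fun i => σ (c i : K)) B 1 (by linarith) zero_le_one (fun j => s1 σ j)
        (fun k j => s2 σ k j) (by
          intro w hw j
          obtain ⟨j', -, rfl⟩ := List.mem_map.1 hw
          unfold uv
          split_ifs <;> simp)
      rw [List.length_map] at h3
      refine le_trans (le_of_eq ?_) h3
      refine Finset.sum_congr rfl fun i _ => ?_
      rw [TW_map σ gK lK js (fun i => (c i : K)) i]
    rw [mul_one, hjs] at h2
    refine h1.trans ?_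
    unfold Hbd
    have h4 : ∑ i, ‖σ (TW gK lK (js.map (uv K)) (fun i => (c i : K)) i)‖ ≤
        (n * B * (d * D + D0)) ^ t * Sbd C1 B b n d D0 D T' N :=
      h2.trans (mul_le_mul_of_nonneg_left (hsum σ) (by positivity))
    gcongr
  have hH1 : 1 ≤ Hbd C1 B b n d D0 D T' N t := by
    -- the norm of a nonzero value times its denominator is at least one; use positivity of factors
    have hn1 : (1 : ℝ) ≤ n := by exact_mod_cast hn
    have hN1 : (1 : ℝ) ≤ N := by exact_mod_cast hN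
    have hD1 : (1 : ℝ) ≤ D := by exact_mod_cast hDpos
    have hD01 : (1 : ℝ) ≤ D0 := by exact_mod_cast hD0
    have hb1 : (1 : ℝ) ≤ b := by exact_mod_cast hb
    have q0 : (1 : ℝ) ≤ d * D + D0 := by
      have : (0 : ℝ) ≤ d * D := by positivity
      linarith
    have q1 : (1 : ℝ) ≤ n * B * (d * D + D0) :=
      one_le_mul_of_one_le_of_one_le (one_le_mul_of_one_le_of_one_le hn1 hB) q0
    have q2 : (1 : ℝ) ≤ n * N * B :=
      one_le_mul_of_one_le_of_one_le (one_le_mul_of_one_le_of_one_le hn1 hN1) hB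
    have q3 : (1 : ℝ) ≤ (D0 * D ^ d : ℕ) := by
      exact_mod_cast Nat.one_le_iff_ne_zero.2 (by positivity)
    have q4 : (1 : ℝ) ≤ Abd B b n d D0 D T' N := by
      unfold Abd
      refine one_le_mul_of_one_le_of_one_le (one_le_mul_of_one_le_of_one_le ?_ ?_) ?_
      · exact one_le_pow₀ (one_le_mul_of_one_le_of_one_le hb1 q1)
      · exact one_le_pow₀ (one_le_mul_of_one_le_of_one_le hb1 q2)
      · exact one_le_pow₀ (one_le_mul_of_one_le_of_one_le hb1 hB)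
    have q5 : (1 : ℝ) ≤ Sbd C1 B b n d D0 D T' N := by
      unfold Sbd
      exact one_le_mul_of_one_le_of_one_le q3
        (one_le_mul_of_one_le_of_one_le (one_le_mul_of_one_le_of_one_le hC1 q3) q4)
    unfold Hbd
    refine one_le_mul_of_one_le_of_one_le (one_le_mul_of_one_le_of_one_le
      (one_le_mul_of_one_le_of_one_le (one_le_pow₀ q1) q5) (one_le_pow₀ q2)) (one_le_pow₀ hB)
  have hup : ‖ι ξ‖ ≤ Ubd C C1 B V R b n d D0 D T' N t := by
    rw [hιξ]
    have hzero : ∀ a : Fin n → ℕ, (∀ i, a i < N) → ∀ ws : List (Fin n → ℂ), ws.length < t →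
        F g l (TW g l ws cC) (gp v a) = 0 := fun a ha =>
      words_zero g l cC (gp v a) t fun js' hjs' => hmin js' hjs' a ha
    have hgB : ∀ j, ‖g j‖ ≤ B := fun j => by rw [← hgK]; exact s1 ι j
    have hlB : ∀ k j, ‖l k j‖ ≤ B := fun k j => by rw [← hlK]; exact s2 ι k j
    have hRN : 0 < R - N := by linarith
    have hR0 : 0 < R := by
      have : (0 : ℝ) ≤ N := Nat.cast_nonneg _
      linarith
    have hwb := fun is his => word_bound hn g l v cC N t hzero B V R hB hV hR hgB hlB hvV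
      (by omega) is his a ha
    have hcs : ∑ i, ‖cC i‖ ≤ Sbd C1 B b n d D0 D T' N := by
      rw [hcC]
      exact hsum ι
    have hcs0 : 0 ≤ ∑ i, ‖cC i‖ := by positivity
    refine words_bound g l cC (gp v a) v κ hκ C (t.factorial *
      (((n * B * V * (d * D + D0)) ^ t * Sbd C1 B b n d D0 D T' N *
        (n * B * (V * (n * N + R))) ^ D0 *
        Real.exp (d * D * (n * B * (V * (n * N + R))))) *
        ((2 * N + 1) / (R - N)) ^ (N * (t / n)))) (by linarith) ?_ hκC t ?_ js hjs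
    · have := hcs0.trans hcs
      positivity
    · intro is his
      refine (hwb is his).trans ?_
      gcongr
  have hL := liouville K ι ξ hξ0 (b ^ (t + (D0 + d * D * (n * N))))
    (Nat.one_le_iff_ne_zero.2 (by positivity)) hint _ hH1 hnb
  have : (1 : ℝ) < 1 := by
    calc (1 : ℝ) ≤ _ := hL
      _ ≤ _ := mul_le_mul_of_nonneg_right hup (by positivity)
      _ < 1 := hfin
  exact lt_irrefl _ this

theorem slg (n d : ℕ) (hn : 0 < n) (g : Fin n → ℂ) (hd : d = n + 1 ∨ (d = n ∧ g ≠ 0))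
    (l : Fin d → Fin n → ℂ) (hl : LinearIndependent ℚ l) (v : Fin n → Fin n → ℂ)
    (hv : LinearIndependent ℂ v) (h1 : ∀ j, IsAlgebraic ℚ (g j))
    (h2 : ∀ k j, IsAlgebraic ℚ (l k j)) (h3 : ∀ i, IsAlgebraic ℚ (∑ j, g j * v i j))
    (h4 : ∀ k i, IsAlgebraic ℚ (Complex.exp (∑ j, l k j * v i j))) : False := by
  obtain ⟨κ, C, V, hC, hV, hvV, hκ, hκC⟩ := SLG_dirs n hn v hv
  obtain ⟨K, _, _, ι, y, hy⟩ := exists_numberField
    (ι' := (Fin n ⊕ (Fin d × Fin n)) ⊕ (Fin n ⊕ (Fin d × Fin n)))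
    (fun x => match x with
      | Sum.inl (Sum.inl j) => g j
      | Sum.inl (Sum.inr q) => l q.1 q.2
      | Sum.inr (Sum.inl i) => ∑ j, g j * v i j
      | Sum.inr (Sum.inr q) => Complex.exp (∑ j, l q.1 j * v q.2 j))
    (by
      rintro ((j | q) | (i | q))
      · exact h1 j
      · exact h2 q.1 q.2
      · exact h3 i
      · exact h4 q.1 q.2)
  obtain ⟨b, hb, hint⟩ := exists_den K y
  obtain ⟨B, hB, hsz⟩ := exists_size K y
  exact slg_core n d hn g hd l hl v κ C V hC hV hvV hκ hκC K ι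
    (fun j => y (Sum.inl (Sum.inl j))) (fun k j => y (Sum.inl (Sum.inr (k, j))))
    (fun i => y (Sum.inr (Sum.inl i))) (fun k i => y (Sum.inr (Sum.inr (k, i))))
    (fun j => hy _) (fun k j => hy _) (fun i => hy _) (fun k i => hy _) b hb B hB
    (fun j => hint _) (fun k j => hint _) (fun i => hint _) (fun k i => hint _)
    (fun σ j => hsz _ σ) (fun σ k j => hsz _ σ) (fun σ i => hsz _ σ) (fun σ k i => hsz _ σ)

end Pool.Agent.BKR
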