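import Pool.Agent.BKR.Arith

/-! # The auxiliary function -/

namespace Pool.Agent.BKR

open NumberField Matrix

/-- the bound for the entries of the linear system -/
noncomputable def Abd (B : ℝ) (b n d D0 D T N : ℕ) : ℝ :=
  (b * (n * B * (d * D + D0))) ^ (n * T) * (b * (n * N * B)) ^ D0 * (b * B) ^ (d * D * (n * N))

theorem sieg_house0 (K : Type) [Field K] [NumberField K] : ∃ C : ℝ,
    ∀ (α β : Type) [Fintype α] [Fintype β] (a : Matrix α β (𝓞 K)) (A : ℝ) (p q : ℕ), a ≠ 0 →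
      0 < p → p < q → Fintype.card α = p → Fintype.card β = q →
      (∀ k l, house ((algebraMap (𝓞 K) K) (a k l)) ≤ A) →
      ∃ ξ : β → 𝓞 K, ξ ≠ 0 ∧ a *ᵥ ξ = 0 ∧
        ∀ l, house (ξ l).1 ≤ C * ((C * q * A) ^ ((p : ℝ) / (q - p))) := by
  classical
  exact ⟨_, fun α β _ _ a A p q ha h0p hpq ca cb habs =>
    NumberField.house.exists_ne_zero_int_vec_house_le K a ha h0p hpq cb habs ca⟩

theorem sieg_house (K : Type) [Field K] [NumberField K] : ∃ C : ℝ, 1 ≤ C ∧
    ∀ (α β : Type) [Fintype α] [Fintype β] (a : Matrix α β (𝓞 K)) (A : ℝ), 1 ≤ A →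
      0 < Fintype.card α → 2 * Fintype.card α ≤ Fintype.card β →
      (∀ k l (σ : K →+* ℂ), ‖σ (a k l : K)‖ ≤ A) →
      ∃ ξ : β → 𝓞 K, ξ ≠ 0 ∧ a *ᵥ ξ = 0 ∧
        ∀ l (σ : K →+* ℂ), ‖σ (ξ l : K)‖ ≤ C * (Fintype.card β : ℕ) * A := by
  obtain ⟨C0, h0⟩ := sieg_house0 K
  have hC1 : (1 : ℝ) ≤ (1 + |C0|) ^ 2 := by
    have := abs_nonneg C0
    nlinarith
  refine ⟨(1 + |C0|) ^ 2, hC1, fun α β _ _ a A hA hp hpq habs => ?_⟩
  have hq : 0 < Fintype.card β := by omega
  have hq1 : (1 : ℝ) ≤ (Fintype.card β : ℕ) := by exact_mod_cast hq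
  by_cases ha : a = 0
  · refine ⟨fun _ => 1, ?_, ?_, ?_⟩
    · have : Nonempty β := Fintype.card_pos_iff.1 hq
      intro h
      have := congrFun h (Classical.arbitrary β)
      simp at this
    · rw [ha, Matrix.zero_mulVec]
    · intro l σ
      simp only [map_one, norm_one]
      have h1 : 1 ≤ (1 + |C0|) ^ 2 * (Fintype.card β : ℝ) := by nlinarith
      nlinarith
  · have hhouse : ∀ k l, house ((algebraMap (𝓞 K) K) (a k l)) ≤ A := by
      intro k l
      rw [house, pi_norm_le_iff_of_nonneg (by linarith)]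
      intro σ
      exact habs k l σ
    obtain ⟨ξ, hξ0, hξ, hb⟩ := h0 α β a A _ _ ha hp (by omega) rfl rfl hhouse
    refine ⟨ξ, hξ0, hξ, fun l σ => ?_⟩
    have h1 : ‖σ (ξ l : K)‖ ≤ house (ξ l).1 := norm_embedding_le_house _ σ
    refine h1.trans ((hb l).trans ?_)
    set e : ℝ := ((Fintype.card α : ℕ) : ℝ) / ((Fintype.card β : ℕ) - (Fintype.card α : ℕ)) with he
    set q : ℝ := ((Fintype.card β : ℕ) : ℝ) with hqd
    have hpq' : 2 * ((Fintype.card α : ℕ) : ℝ) ≤ q := by rw [hqd]; exact_mod_cast hpq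
    have hp' : (0 : ℝ) < (Fintype.card α : ℕ) := by exact_mod_cast hp
    have he0 : 0 ≤ e := by
      rw [he]
      exact div_nonneg hp'.le (by linarith)
    have he1 : e ≤ 1 := by
      rw [he, div_le_one (by linarith)]
      linarith
    have h2 : |C0 * q * A| ^ e ≤ (1 + |C0|) * q * A := by
      have h3 : |C0 * q * A| ≤ (1 + |C0|) * q * A := by
        rw [abs_mul, abs_mul, abs_of_nonneg (by linarith : 0 ≤ q), abs_of_nonneg (by linarith : 0 ≤ A)]
        gcongr
        linarith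
      have h4 : 1 ≤ (1 + |C0|) * q * A := by
        have h5 : 1 ≤ (1 + |C0|) * q := by nlinarith [abs_nonneg C0]
        nlinarith
      calc |C0 * q * A| ^ e ≤ ((1 + |C0|) * q * A) ^ e :=
            Real.rpow_le_rpow (abs_nonneg _) h3 he0
        _ ≤ ((1 + |C0|) * q * A) ^ (1 : ℝ) := Real.rpow_le_rpow_of_exponent_le h4 he1
        _ = (1 + |C0|) * q * A := Real.rpow_one _
    calc C0 * (C0 * q * A) ^ e ≤ |C0 * (C0 * q * A) ^ e| := le_abs_self _
      _ = |C0| * |(C0 * q * A) ^ e| := abs_mul _ _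
      _ ≤ |C0| * |C0 * q * A| ^ e := by
          gcongr
          exact Real.abs_rpow_le_abs_rpow _ _
      _ ≤ (1 + |C0|) * ((1 + |C0|) * q * A) := by
          gcongr
          linarith
      _ = (1 + |C0|) ^ 2 * q * A := by ring

theorem sieg_tw_length {n : ℕ} (τ : Fin n → ℕ) : (tw τ).length = ∑ j, τ j := by
  rw [tw, List.length_flatMap]
  simp only [List.length_replicate]
  rw [← List.sum_ofFn, List.ofFn_eq_map]

theorem sieg_val_sum {R : Type*} [CommRing R] {n d D0 D : ℕ} (ρ : Fin n → R)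
    (α : Fin d → Fin n → R) {ι : Type*} (s : Finset ι) (x : ι → R) (c : ι → Idx D0 D d → R)
    (a : Fin n → ℕ) :
    val ρ α (fun i' => ∑ i ∈ s, x i * c i i') a = ∑ i ∈ s, x i * val ρ α (c i) a := by
  unfold val
  simp only [Finset.mul_sum, Finset.sum_mul]
  rw [Finset.sum_comm]
  refine Finset.sum_congr rfl fun i _ => Finset.sum_congr rfl fun j _ => ?_
  ring

theorem sieg_delta {R : Type*} [CommRing R] {d D0 D : ℕ} (c : Idx D0 D d → R) :
    c = fun i' => ∑ i, c i * (if i' = i then (1 : R) else 0) := by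
  funext i'
  simp

theorem siegel (K : Type) [Field K] [NumberField K] : ∃ C1 : ℝ, 1 ≤ C1 ∧
    ∀ (n d D0 D T N : ℕ) (g : Fin n → K) (l : Fin d → Fin n → K) (ρ : Fin n → K)
      (α : Fin d → Fin n → K) (b : ℕ) (B : ℝ), 1 ≤ b → 1 ≤ B → 0 < n → 0 < N → 0 < T → 0 < D0 →
      0 < D →
      (∀ j, IsIntegral ℤ ((b : K) * g j)) → (∀ k j, IsIntegral ℤ ((b : K) * l k j)) →
      (∀ i, IsIntegral ℤ ((b : K) * ρ i)) → (∀ k i, IsIntegral ℤ ((b : K) * α k i)) →
      (∀ (σ : K →+* ℂ) j, ‖σ (g j)‖ ≤ B) → (∀ (σ : K →+* ℂ) k j, ‖σ (l k j)‖ ≤ B) →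
      (∀ (σ : K →+* ℂ) i, ‖σ (ρ i)‖ ≤ B) → (∀ (σ : K →+* ℂ) k i, ‖σ (α k i)‖ ≤ B) →
      2 * (T * N) ^ n ≤ D0 * D ^ d →
      ∃ c : Idx D0 D d → 𝓞 K, c ≠ 0 ∧
        (∀ i (σ : K →+* ℂ), ‖σ (c i : K)‖ ≤ C1 * (D0 * D ^ d : ℕ) * Abd B b n d D0 D T N) ∧
        ∀ (τ : Fin n → Fin T) (a : Fin n → Fin N),
          val ρ α (TW g l ((tw fun j => (τ j : ℕ)).map (uv K)) fun i => (c i : K))
            (fun i => (a i : ℕ)) = 0 := by
  obtain ⟨C1, hC1, hS⟩ := sieg_house K
  refine ⟨C1, hC1, ?_⟩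
  intro n d D0 D T N g l ρ α b B hb hB hn hN hT hD0 hD ig il iρ iα bg bl bρ bα hcount
  have hcI : Fintype.card (Idx D0 D d) = D0 * D ^ d := by simp [Idx]
  have hcJ : Fintype.card ((Fin n → Fin T) × (Fin n → Fin N)) = (T * N) ^ n := by
    simp [mul_pow]
  have hb1 : (1 : ℝ) ≤ b := by exact_mod_cast hb
  have hn1 : (1 : ℝ) ≤ n := by exact_mod_cast hn
  have hN1 : (1 : ℝ) ≤ N := by exact_mod_cast hN
  have hD01 : (1 : ℝ) ≤ D0 := by exact_mod_cast hD0
  have hnB : 1 ≤ (n : ℝ) * B := by nlinarith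
  have hdD : (1 : ℝ) ≤ d * D + D0 := by
    have : (0 : ℝ) ≤ (d : ℝ) * D := by positivity
    linarith
  have hG : 1 ≤ (n : ℝ) * B * (d * D + D0) := by nlinarith
  have hnNB : 1 ≤ (n : ℝ) * N * B := by
    have : 1 ≤ (n : ℝ) * N := by nlinarith
    nlinarith
  have hA1 : 1 ≤ Abd B b n d D0 D T N := by
    unfold Abd
    have h1 : 1 ≤ (b : ℝ) * (n * B * (d * D + D0)) := by nlinarith
    have h2 : 1 ≤ (b : ℝ) * (n * N * B) := by nlinarith
    have h3 : 1 ≤ (b : ℝ) * B := by nlinarith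
    have k1 := one_le_pow₀ (n := n * T) h1
    have k2 := one_le_pow₀ (n := D0) h2
    have k3 := one_le_pow₀ (n := d * D * (n * N)) h3
    have k12 := one_le_mul_of_one_le_of_one_le k1 k2
    exact one_le_mul_of_one_le_of_one_le k12 k3
  -- the entries
  set dl : Idx D0 D d → Idx D0 D d → K := fun i i' => if i' = i then (1 : K) else 0 with hdl
  have hlen : ∀ τ : Fin n → Fin T, (tw fun j => (τ j : ℕ)).length ≤ n * T := by
    intro τ
    rw [sieg_tw_length]
    calc ∑ j, (τ j : ℕ) ≤ ∑ _j : Fin n, T := Finset.sum_le_sum fun j _ => (τ j).2.le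
      _ = n * T := by simp
  set ent : (Fin n → Fin T) × (Fin n → Fin N) → Idx D0 D d → K := fun f i =>
    (b : K) ^ (n * T) * (b : K) ^ (D0 + d * D * (n * N)) *
      val ρ α (TW g l ((tw fun j => (f.1 j : ℕ)).map (uv K)) (dl i)) (fun i => (f.2 i : ℕ))
    with hent
  have hint : ∀ f i, IsIntegral ℤ (ent f i) := by
    intro f i
    simp only [hent]
    refine isIntegral_val ρ α b iρ iα ((b : K) ^ (n * T)) _ (fun i' => ?_) N _ (fun i => (f.2 i).2)
    have h1 := isIntegral_TW g l b ig il (dl i) (fun i'' => by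
      simp only [hdl]
      split_ifs
      · exact isIntegral_one
      · exact isIntegral_zero) (tw fun j => (f.1 j : ℕ)) i'
    have h2 : (b : K) ^ (n * T) = (b : K) ^ (n * T - (tw fun j => (f.1 j : ℕ)).length) *
        (b : K) ^ ((tw fun j => (f.1 j : ℕ)).length) := by
      rw [← pow_add]
      congr 1
      have := hlen f.1
      omega
    rw [h2, mul_assoc]
    refine IsIntegral.mul (IsIntegral.pow ?_ _) h1
    exact_mod_cast (isIntegral_algebraMap (R := ℤ) (A := K) (x := (b : ℤ)))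
  set M : Matrix ((Fin n → Fin T) × (Fin n → Fin N)) (Idx D0 D d) (𝓞 K) :=
    fun f i => ⟨ent f i, hint f i⟩ with hM
  have hMc : ∀ f i, ((M f i : 𝓞 K) : K) = ent f i := fun f i => rfl
  have hMb : ∀ f i (σ : K →+* ℂ), ‖σ (M f i : K)‖ ≤ Abd B b n d D0 D T N := by
    intro f i σ
    rw [hMc]
    simp only [hent]
    rw [map_mul, map_mul, map_pow, map_pow, map_natCast, norm_mul, norm_mul, norm_pow, norm_pow,
      Complex.norm_natCast]
    have h1 := norm_val_le σ ρ α B hB (bρ σ) (bα σ)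
      (TW g l ((tw fun j => (f.1 j : ℕ)).map (uv K)) (dl i)) N hn hN (fun i => (f.2 i : ℕ))
      (fun i => (f.2 i).2)
    have h2 : ∑ i', ‖σ (TW g l ((tw fun j => (f.1 j : ℕ)).map (uv K)) (dl i) i')‖ ≤
        (n * B * (d * D + D0)) ^ (n * T) := by
      have h3 : ∀ i', σ (TW g l ((tw fun j => (f.1 j : ℕ)).map (uv K)) (dl i) i') =
          TW (fun j => σ (g j)) (fun k j => σ (l k j)) ((tw fun j => (f.1 j : ℕ)).map (uv ℂ))
            (fun i'' => σ (dl i i'')) i' := fun i' => TW_map σ g l _ _ i'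
      simp only [h3]
      have h4 := TW_l1 (fun j => σ (g j)) (fun k j => σ (l k j))
        ((tw fun j => (f.1 j : ℕ)).map (uv ℂ)) (fun i'' => σ (dl i i'')) B 1 (by linarith)
        zero_le_one (bg σ) (bl σ) (fun w hw j => by
          rw [List.mem_map] at hw
          obtain ⟨j', _, rfl⟩ := hw
          simp only [uv]
          split_ifs <;> simp)
      refine h4.trans ?_
      have h5 : ∑ i'', ‖σ (dl i i'')‖ = 1 := by
        simp only [hdl]
        rw [Finset.sum_eq_single i]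
        · simp
        · intro j _ hj
          rw [if_neg hj, map_zero, norm_zero]
        · intro h; exact absurd (Finset.mem_univ _) h
      rw [h5, mul_one, mul_one, List.length_map]
      exact pow_le_pow_right₀ hG (hlen f.1)
    have hBn : 0 ≤ B := by linarith
    calc (b : ℝ) ^ (n * T) * (b : ℝ) ^ (D0 + d * D * (n * N)) * ‖σ (val ρ α
          (TW g l ((tw fun j => (f.1 j : ℕ)).map (uv K)) (dl i)) (fun i => (f.2 i : ℕ)))‖
        ≤ (b : ℝ) ^ (n * T) * (b : ℝ) ^ (D0 + d * D * (n * N)) *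
          ((n * B * (d * D + D0)) ^ (n * T) * (n * N * B) ^ D0 * B ^ (d * D * (n * N))) := by
          gcongr
          refine h1.trans ?_
          gcongr
      _ = Abd B b n d D0 D T N := by
          unfold Abd
          rw [mul_pow (b : ℝ) (n * B * (d * D + D0)), mul_pow (b : ℝ) (n * N * B),
            mul_pow (b : ℝ) B, pow_add]
          ring
  obtain ⟨c, hc0, hc, hcb⟩ := hS _ _ M (Abd B b n d D0 D T N) hA1
    (by rw [hcJ]; positivity) (by rw [hcI, hcJ]; exact hcount) hMb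
  refine ⟨c, hc0, ?_, ?_⟩
  · intro i σ
    have := hcb i σ
    rwa [hcI] at this
  · intro τ a
    have h1 : (M *ᵥ c) (τ, a) = 0 := by rw [hc]; rfl
    have h2 : ∑ i, ((M (τ, a) i : 𝓞 K) : K) * ((c i : 𝓞 K) : K) = 0 := by
      have h3 := congrArg (algebraMap (𝓞 K) K) h1
      rw [Matrix.mulVec, dotProduct, map_sum, map_zero] at h3
      simpa only [map_mul] using h3
    have h3 : val ρ α (TW g l ((tw fun j => (τ j : ℕ)).map (uv K)) fun i => (c i : K))
        (fun i => (a i : ℕ)) = ∑ i, (c i : K) *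
          val ρ α (TW g l ((tw fun j => (τ j : ℕ)).map (uv K)) (dl i)) (fun i => (a i : ℕ)) := by
      conv_lhs => rw [sieg_delta (fun i => (c i : K))]
      rw [TW_sum_coef, sieg_val_sum]
    rw [h3]
    have hbK : (b : K) ≠ 0 := by
      have : (b : ℕ) ≠ 0 := by omega
      exact_mod_cast this
    have h4 : (b : K) ^ (n * T) * (b : K) ^ (D0 + d * D * (n * N)) * (∑ i, (c i : K) *
          val ρ α (TW g l ((tw fun j => (τ j : ℕ)).map (uv K)) (dl i)) (fun i => (a i : ℕ))) = 0 := by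
      rw [Finset.mul_sum, ← h2]
      refine Finset.sum_congr rfl fun i _ => ?_
      rw [hMc]
      simp only [hent]
      ring
    exact (mul_eq_zero.1 h4).resolve_left (by positivity)

end Pool.Agent.BKR
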