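import Pool.Agent.BKR.Op

/-! # Words of directions -/

namespace Pool.Agent.BKR

variable {n d D0 D : ℕ}

private theorem words_F_sum (g : Fin n → ℂ) (l : Fin d → Fin n → ℂ) {ι : Type*} (s : Finset ι)
    (x : ι → ℂ) (c : ι → Idx D0 D d → ℂ) (z : Fin n → ℂ) :
    F g l (fun i' => ∑ i ∈ s, x i * c i i') z = ∑ i ∈ s, x i * F g l (c i) z := by
  unfold F
  simp only [Finset.sum_mul, Finset.mul_sum]
  rw [Finset.sum_comm]
  refine Finset.sum_congr rfl fun i _ => Finset.sum_congr rfl fun j _ => ?_
  ring

private theorem words_uv (w : Fin n → ℂ) : w = fun j' => ∑ j, w j * uv ℂ j j' := by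
  funext j'
  unfold uv
  simp

private theorem words_zero_aux (g : Fin n → ℂ) (l : Fin d → Fin n → ℂ) (c : Idx D0 D d → ℂ)
    (z : Fin n → ℂ) (t : ℕ)
    (h : ∀ js : List (Fin n), js.length < t → F g l (TW g l (js.map (uv ℂ)) c) z = 0)
    (ws : List (Fin n → ℂ)) : ∀ js : List (Fin n), ws.length + js.length < t →
      F g l (TW g l (ws ++ js.map (uv ℂ)) c) z = 0 := by
  induction ws with
  | nil =>
    intro js hjs
    rw [List.nil_append]
    exact h js (by simpa using hjs)
  | cons w ws ih =>
    intro js hjs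
    rw [List.length_cons] at hjs
    have e1 : TW g l (w :: ws ++ js.map (uv ℂ)) c =
        T g l w (TW g l (ws ++ js.map (uv ℂ)) c) := rfl
    have e2 : ∀ j, T g l (uv ℂ j) (TW g l (ws ++ js.map (uv ℂ)) c) =
        TW g l (ws ++ (j :: js).map (uv ℂ)) c := by
      intro j
      have e3 : T g l (uv ℂ j) (TW g l (ws ++ js.map (uv ℂ)) c) =
        TW g l (uv ℂ j :: (ws ++ js.map (uv ℂ))) c := rfl
      rw [e3]
      refine TW_perm g l ?_ c
      rw [List.map_cons]
      exact List.perm_middle.symm
    rw [e1, words_uv w, T_sum_dir, words_F_sum]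
    refine Finset.sum_eq_zero fun j _ => ?_
    rw [e2, ih (j :: js) (by rw [List.length_cons]; omega), mul_zero]

/-- vanishing for short words in the unit vectors implies vanishing for all short words -/
theorem words_zero (g : Fin n → ℂ) (l : Fin d → Fin n → ℂ) (c : Idx D0 D d → ℂ) (z : Fin n → ℂ)
    (t : ℕ) (h : ∀ js : List (Fin n), js.length < t → F g l (TW g l (js.map (uv ℂ)) c) z = 0) :
    ∀ ws : List (Fin n → ℂ), ws.length < t → F g l (TW g l ws c) z = 0 := by
  intro ws hws
  have := words_zero_aux g l c z t h ws [] (by simpa using hws)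
  simpa using this

private theorem words_bound_aux (g : Fin n → ℂ) (l : Fin d → Fin n → ℂ) (c : Idx D0 D d → ℂ)
    (z : Fin n → ℂ) (v κ : Fin n → Fin n → ℂ) (hκ : ∀ j, uv ℂ j = fun j' => ∑ i, κ j i * v i j')
    (C M : ℝ) (hC0 : 0 ≤ C) (hM0 : 0 ≤ M) (hC : ∀ j, ∑ i, ‖κ j i‖ ≤ C) (t : ℕ)
    (h : ∀ is : List (Fin n), is.length = t → ‖F g l (TW g l (is.map v) c) z‖ ≤ M)
    (js : List (Fin n)) : ∀ is : List (Fin n), is.length + js.length = t →
      ‖F g l (TW g l (is.map v ++ js.map (uv ℂ)) c) z‖ ≤ C ^ js.length * M := by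
  induction js with
  | nil =>
    intro is his
    have := h is (by simpa using his)
    simpa using this
  | cons j js ih =>
    intro is his
    rw [List.length_cons] at his
    have e1 : TW g l (is.map v ++ (j :: js).map (uv ℂ)) c =
        T g l (uv ℂ j) (TW g l (is.map v ++ js.map (uv ℂ)) c) := by
      have e3 : T g l (uv ℂ j) (TW g l (is.map v ++ js.map (uv ℂ)) c) =
        TW g l (uv ℂ j :: (is.map v ++ js.map (uv ℂ))) c := rfl
      rw [e3]
      refine TW_perm g l ?_ c
      rw [List.map_cons]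
      exact List.perm_middle
    have e2 : ∀ i, T g l (v i) (TW g l (is.map v ++ js.map (uv ℂ)) c) =
        TW g l ((i :: is).map v ++ js.map (uv ℂ)) c := fun i => rfl
    rw [e1, hκ j, T_sum_dir, words_F_sum]
    refine (norm_sum_le _ _).trans ?_
    have e4 : ∀ i ∈ Finset.univ, ‖κ j i * F g l (T g l (v i)
        (TW g l (is.map v ++ js.map (uv ℂ)) c)) z‖ ≤ ‖κ j i‖ * (C ^ js.length * M) := by
      intro i _
      rw [norm_mul, e2]
      refine mul_le_mul_of_nonneg_left (ih (i :: is) (by rw [List.length_cons]; omega))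
        (norm_nonneg _)
    refine (Finset.sum_le_sum e4).trans ?_
    rw [← Finset.sum_mul, List.length_cons, pow_succ']
    have e5 : 0 ≤ C ^ js.length * M := mul_nonneg (pow_nonneg hC0 _) hM0
    calc (∑ i, ‖κ j i‖) * (C ^ js.length * M) ≤ C * (C ^ js.length * M) :=
          mul_le_mul_of_nonneg_right (hC j) e5
      _ = C * C ^ js.length * M := by ring

theorem words_bound (g : Fin n → ℂ) (l : Fin d → Fin n → ℂ) (c : Idx D0 D d → ℂ) (z : Fin n → ℂ)
    (v κ : Fin n → Fin n → ℂ) (hκ : ∀ j, uv ℂ j = fun j' => ∑ i, κ j i * v i j') (C M : ℝ)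
    (hC0 : 0 ≤ C) (hM0 : 0 ≤ M) (hC : ∀ j, ∑ i, ‖κ j i‖ ≤ C) (t : ℕ)
    (h : ∀ is : List (Fin n), is.length = t → ‖F g l (TW g l (is.map v) c) z‖ ≤ M) :
    ∀ js : List (Fin n), js.length = t →
      ‖F g l (TW g l (js.map (uv ℂ)) c) z‖ ≤ C ^ t * M := by
  intro js hjs
  have := words_bound_aux g l c z v κ hκ C M hC0 hM0 hC t h js [] (by simpa using hjs)
  rw [hjs] at this
  simpa using this

private theorem words_sum_count (is : List (Fin n)) : ∑ j, is.count j = is.length := by
  have h := Multiset.toFinset_sum_count_eq (is : Multiset (Fin n))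
  rw [Multiset.coe_card] at h
  rw [← h]
  symm
  refine Finset.sum_subset (Finset.subset_univ _) (fun j _ hj => ?_) |>.trans ?_
  · rw [Multiset.mem_toFinset] at hj
    exact Multiset.count_eq_zero_of_notMem hj
  · exact Finset.sum_congr rfl fun j _ => Multiset.coe_count _ _

/-- some letter occurs often -/
theorem exists_rep (hn : 0 < n) (is : List (Fin n)) :
    ∃ (i : Fin n) (rest : List (Fin n)),
      is.Perm (List.replicate (is.length / n) i ++ rest) := by
  have : Nonempty (Fin n) := ⟨⟨0, hn⟩⟩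
  have h1 : ∃ i : Fin n, is.length / n ≤ is.count i := by
    by_contra hcon
    push Not at hcon
    have h2 : ∑ j : Fin n, is.count j < ∑ _j : Fin n, is.length / n :=
      Finset.sum_lt_sum_of_nonempty Finset.univ_nonempty fun j _ => hcon j
    rw [words_sum_count, Finset.sum_const, Finset.card_univ, Fintype.card_fin, smul_eq_mul] at h2
    have h3 := Nat.mul_div_le is.length n
    omega
  obtain ⟨i, hi⟩ := h1
  obtain ⟨rest, hrest⟩ := (List.replicate_sublist_iff.2 hi).exists_perm_append
  exact ⟨i, rest, hrest⟩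

theorem perm_tw (js : List (Fin n)) : js.Perm (tw fun j => js.count j) := by
  rw [List.perm_iff_count]
  intro a
  unfold tw
  rw [List.count_flatMap]
  have h : (List.map (List.count a ∘ fun j => List.replicate (js.count j) j)
      (List.finRange n)).sum = ∑ j, (List.count a (List.replicate (js.count j) j)) := by
    rw [Fin.sum_univ_def]
    rfl
  rw [h]
  simp only [List.count_replicate]
  simp

theorem length_tw (τ : Fin n → ℕ) : (tw τ).length = ∑ j, τ j := by
  unfold tw
  rw [List.length_flatMap, Fin.sum_univ_def]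
  simp

end Pool.Agent.BKR
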